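import Pool.Agent.Lib.H69.Hopf.Defs

/-!
# The Fischer expansion of the Gauss-Bonnet integrand (MP_5a30bb), general dimension
-/

set_option autoImplicit false
set_option linter.unusedSectionVars false

namespace Pool.Agent.Lib.H14D.FE

open Finset Equiv Pool.Agent.H69Hopf

/-- the wedge product of `n` two-forms in dimension `2 n`, up to a positive factor. -/
noncomputable def mp {n : ℕ} (f : Fin n → Fin (2 * n) → Fin (2 * n) → ℝ) : ℝ :=
  ∑ σ : Perm (Fin (2 * n)), ((Perm.sign σ : ℤ) : ℝ) * ∏ i, f i (σ (fst i)) (σ (snd i))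

/-- the positions. -/
noncomputable def pos' (n : ℕ) : Fin n × Bool ≃ Fin (2 * n) :=
  Equiv.ofBijective (fun x => if x.2 then snd x.1 else fst x.1) (by
    rw [Fintype.bijective_iff_injective_and_card]
    refine ⟨?_, by simp [mul_comm]⟩
    rintro ⟨i, b⟩ ⟨j, b'⟩ h
    cases b <;> cases b' <;> simp [fst, snd] at h ⊢ <;> omega)

theorem pos_false' {n : ℕ} (i : Fin n) : pos' n (i, false) = fst i := rfl

theorem pos_true' {n : ℕ} (i : Fin n) : pos' n (i, true) = snd i := rfl

/-- (FE1) the integrand of a sum of squares with signs. -/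
theorem gb_fischer {n : ℕ} {ι : Type*} [Fintype ι] (R : Arr (2 * n)) (c : ι → ℝ)
    (w : ι → Fin (2 * n) → Fin (2 * n) → ℝ)
    (hR : ∀ i j k l, R i j k l = ∑ x, c x * w x i j * w x k l) :
    gaussBonnet n R = ∑ κ : Fin n → ι, (∏ i, c (κ i)) * mp (fun i => w (κ i)) ^ 2 := by
  classical
  have h : ∀ σ τ : Perm (Fin (2 * n)), ∏ i, R (σ (fst i)) (σ (snd i)) (τ (fst i)) (τ (snd i)) =
      ∑ κ : Fin n → ι, (∏ i, c (κ i)) * (∏ i, w (κ i) (σ (fst i)) (σ (snd i))) *
        ∏ i, w (κ i) (τ (fst i)) (τ (snd i)) := by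
    intro σ τ
    simp only [hR]
    rw [Finset.prod_univ_sum, Fintype.piFinset_univ]
    refine Finset.sum_congr rfl fun κ _ => ?_
    rw [Finset.prod_mul_distrib, Finset.prod_mul_distrib]
  unfold gaussBonnet
  simp only [h]
  have h2 : ∀ κ : Fin n → ι, (∏ i, c (κ i)) * mp (fun i => w (κ i)) ^ 2 =
      ∑ σ : Perm (Fin (2 * n)), ∑ τ : Perm (Fin (2 * n)),
        ((Perm.sign σ : ℤ) : ℝ) * ((Perm.sign τ : ℤ) : ℝ) *
          ((∏ i, c (κ i)) * (∏ i, w (κ i) (σ (fst i)) (σ (snd i))) *
            ∏ i, w (κ i) (τ (fst i)) (τ (snd i))) := by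
    intro κ
    unfold mp
    rw [sq, Finset.sum_mul_sum, Finset.mul_sum]
    refine Finset.sum_congr rfl fun σ _ => ?_
    rw [Finset.mul_sum]
    refine Finset.sum_congr rfl fun τ _ => ?_
    ring
  simp only [h2]
  rw [Finset.sum_comm (s := (univ : Finset (Fin n → ι)))]
  refine Finset.sum_congr rfl fun σ _ => ?_
  rw [Finset.sum_comm (s := (univ : Finset (Fin n → ι)))]
  refine Finset.sum_congr rfl fun τ _ => ?_
  rw [Finset.mul_sum]

/-- the block permutation of the positions. -/
noncomputable def lift {n : ℕ} (π : Perm (Fin n)) : Perm (Fin (2 * n)) :=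
  (pos' n).symm.trans ((Equiv.prodCongrLeft (fun _ : Bool => π)).trans (pos' n))


theorem lift_fst {n : ℕ} (π : Perm (Fin n)) (i : Fin n) : lift π (fst i) = fst (π i) := by
  rw [← pos_false', ← pos_false']
  unfold lift
  rw [Equiv.trans_apply, Equiv.symm_apply_apply]
  rfl

theorem lift_snd {n : ℕ} (π : Perm (Fin n)) (i : Fin n) : lift π (snd i) = snd (π i) := by
  rw [← pos_true', ← pos_true']
  unfold lift
  rw [Equiv.trans_apply, Equiv.symm_apply_apply]
  rfl

theorem sign_lift {n : ℕ} (π : Perm (Fin n)) : Perm.sign (lift π) = 1 := by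
  have h : lift π = ((pos' n).symm.trans (Equiv.prodCongrLeft (fun _ : Bool => π))).trans (pos' n) := rfl
  rw [h, Perm.sign_symm_trans_trans, Perm.sign_prodCongrLeft]
  simp

/-- (FE2) invariance under permutations of the slots. -/
theorem mp_perm {n : ℕ} (f : Fin n → Fin (2 * n) → Fin (2 * n) → ℝ) (π : Perm (Fin n)) :
    mp (fun i => f (π i)) = mp f := by
  unfold mp
  refine Fintype.sum_equiv (Equiv.mulRight (lift π⁻¹)) _ _ fun σ => ?_
  rw [Equiv.coe_mulRight, Perm.sign_mul, sign_lift, mul_one]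
  congr 1
  refine Fintype.prod_equiv π _ _ fun i => ?_
  rw [Perm.mul_apply, Perm.mul_apply, lift_fst, lift_snd]
  simp

/-- slots are additive. -/
theorem mp_update_add {n : ℕ} (f : Fin n → Fin (2 * n) → Fin (2 * n) → ℝ) (i : Fin n)
    (a b : Fin (2 * n) → Fin (2 * n) → ℝ) :
    mp (Function.update f i (a + b)) = mp (Function.update f i a) + mp (Function.update f i b) := by
  unfold mp
  rw [← Finset.sum_add_distrib]
  refine Finset.sum_congr rfl fun σ _ => ?_
  rw [← Finset.mul_prod_erase _ _ (mem_univ i), ← Finset.mul_prod_erase _ _ (mem_univ i),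
    ← Finset.mul_prod_erase _ _ (mem_univ i)]
  have h : ∀ c : Fin (2 * n) → Fin (2 * n) → ℝ,
      ∏ j ∈ univ.erase i, Function.update f i c j (σ (fst j)) (σ (snd j)) =
        ∏ j ∈ univ.erase i, f j (σ (fst j)) (σ (snd j)) := by
    intro c
    refine Finset.prod_congr rfl fun j hj => ?_
    rw [Function.update_of_ne (Finset.ne_of_mem_erase hj)]
  rw [h, h, h, Function.update_self, Function.update_self, Function.update_self]
  simp only [Pi.add_apply]
  ring

/-- slots are homogeneous. -/
theorem mp_update_smul {n : ℕ} (f : Fin n → Fin (2 * n) → Fin (2 * n) → ℝ) (i : Fin n)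
    (r : ℝ) (a : Fin (2 * n) → Fin (2 * n) → ℝ) :
    mp (Function.update f i (r • a)) = r * mp (Function.update f i a) := by
  unfold mp
  rw [Finset.mul_sum]
  refine Finset.sum_congr rfl fun σ _ => ?_
  rw [← Finset.mul_prod_erase _ _ (mem_univ i), ← Finset.mul_prod_erase _ _ (mem_univ i)]
  have h : ∀ c : Fin (2 * n) → Fin (2 * n) → ℝ,
      ∏ j ∈ univ.erase i, Function.update f i c j (σ (fst j)) (σ (snd j)) =
        ∏ j ∈ univ.erase i, f j (σ (fst j)) (σ (snd j)) := by
    intro c
    refine Finset.prod_congr rfl fun j hj => ?_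
    rw [Function.update_of_ne (Finset.ne_of_mem_erase hj)]
  rw [h, h, Function.update_self, Function.update_self]
  simp only [Pi.smul_apply, smul_eq_mul]
  ring

theorem ne_fst_snd {n : ℕ} (i j : Fin n) : (fst i : Fin (2 * n)) ≠ snd j := by
  intro h
  have := congrArg Fin.val h
  simp [fst, snd] at this
  omega

theorem fst_inj {n : ℕ} {i j : Fin n} (h : (fst i : Fin (2 * n)) = fst j) : i = j := by
  have := congrArg Fin.val h
  simp [fst] at this
  exact Fin.ext (by omega)

theorem snd_inj {n : ℕ} {i j : Fin n} (h : (snd i : Fin (2 * n)) = snd j) : i = j := by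
  have := congrArg Fin.val h
  simp [snd] at this
  exact Fin.ext (by omega)

/-- (FE3) two slots with the same form satisfying the Pluecker relations. -/
theorem mp_two {n : ℕ} (f : Fin n → Fin (2 * n) → Fin (2 * n) → ℝ) (i j : Fin n) (hij : i ≠ j)
    (m : Fin (2 * n) → Fin (2 * n) → ℝ) (hms : ∀ u v, m u v = - m v u)
    (hP : ∀ p q r t, m p q * m r t - m p r * m q t + m p t * m q r = 0)
    (hi : f i = m) (hj : f j = m) : mp f = 0 := by
  -- the three-cycle `snd i -> fst j -> snd j -> snd i`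
  let c : Perm (Fin (2 * n)) := swap (snd i) (fst j) * swap (fst j) (snd j)
  have hne1 : (snd i : Fin (2 * n)) ≠ fst j := (ne_fst_snd j i).symm
  have hne2 : (fst j : Fin (2 * n)) ≠ snd j := ne_fst_snd j j
  have hne3 : (snd i : Fin (2 * n)) ≠ snd j := fun h => hij (snd_inj h)
  have hne4 : (fst i : Fin (2 * n)) ≠ snd i := ne_fst_snd i i
  have hne5 : (fst i : Fin (2 * n)) ≠ fst j := fun h => hij (fst_inj h)
  have hne6 : (fst i : Fin (2 * n)) ≠ snd j := ne_fst_snd i j
  have c1 : c (fst i) = fst i := by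
    show swap (snd i) (fst j) (swap (fst j) (snd j) (fst i)) = fst i
    rw [swap_apply_of_ne_of_ne hne5 hne6, swap_apply_of_ne_of_ne hne4 hne5]
  have c2 : c (snd i) = fst j := by
    show swap (snd i) (fst j) (swap (fst j) (snd j) (snd i)) = fst j
    rw [swap_apply_of_ne_of_ne hne1 hne3, swap_apply_left]
  have c3 : c (fst j) = snd j := by
    show swap (snd i) (fst j) (swap (fst j) (snd j) (fst j)) = snd j
    rw [swap_apply_left, swap_apply_of_ne_of_ne hne3.symm hne2.symm]
  have c4 : c (snd j) = snd i := by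
    show swap (snd i) (fst j) (swap (fst j) (snd j) (snd j)) = snd i
    rw [swap_apply_right, swap_apply_right]
  have c5 : ∀ k, k ≠ i → k ≠ j → c (fst k) = fst k := by
    intro k hki hkj
    show swap (snd i) (fst j) (swap (fst j) (snd j) (fst k)) = fst k
    rw [swap_apply_of_ne_of_ne (fun h => hkj (fst_inj h)) (ne_fst_snd k j),
      swap_apply_of_ne_of_ne (ne_fst_snd k i) (fun h => hkj (fst_inj h))]
  have c6 : ∀ k, k ≠ i → k ≠ j → c (snd k) = snd k := by
    intro k hki hkj
    show swap (snd i) (fst j) (swap (fst j) (snd j) (snd k)) = snd k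
    rw [swap_apply_of_ne_of_ne (ne_fst_snd j k).symm (fun h => hkj (snd_inj h)),
      swap_apply_of_ne_of_ne (fun h => hki (snd_inj h)) (ne_fst_snd j k).symm]
  have cs : Perm.sign c = 1 := by
    show Perm.sign (swap (snd i) (fst j) * swap (fst j) (snd j)) = 1
    rw [Perm.sign_mul, Perm.sign_swap hne1, Perm.sign_swap hne2]
    rfl
  have hmul : ∀ (σ : Perm (Fin (2 * n))) x, (σ * c) x = σ (c x) := fun _ _ => rfl
  clear_value c
  let F : Perm (Fin (2 * n)) → ℝ := fun σ =>
    ((Perm.sign σ : ℤ) : ℝ) * ∏ k, f k (σ (fst k)) (σ (snd k))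
  let G : Perm (Fin (2 * n)) → ℝ := fun σ => ∏ k ∈ (univ.erase i).erase j, f k (σ (fst k)) (σ (snd k))
  have hF : ∀ σ, F σ = ((Perm.sign σ : ℤ) : ℝ) *
      (m (σ (fst i)) (σ (snd i)) * (m (σ (fst j)) (σ (snd j)) * G σ)) := by
    intro σ
    show ((Perm.sign σ : ℤ) : ℝ) * ∏ k, f k (σ (fst k)) (σ (snd k)) = _
    rw [← Finset.mul_prod_erase _ _ (mem_univ i),
      ← Finset.mul_prod_erase (univ.erase i) _ (Finset.mem_erase.2 ⟨hij.symm, mem_univ j⟩), hi, hj]
  have hG : ∀ σ, G (σ * c) = G σ := by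
    intro σ
    refine Finset.prod_congr rfl fun k hk => ?_
    have hkj := Finset.ne_of_mem_erase hk
    have hki := Finset.ne_of_mem_erase (Finset.mem_of_mem_erase hk)
    rw [hmul, hmul, c5 k hki hkj, c6 k hki hkj]
  have hs : ∀ σ, Perm.sign (σ * c) = Perm.sign σ := by
    intro σ
    rw [Perm.sign_mul, cs, mul_one]
  have e1 : ∑ σ, F (σ * c) = ∑ σ, F σ := Fintype.sum_equiv (Equiv.mulRight c) _ _ fun σ => rfl
  have e2 : ∑ σ, F (σ * c * c) = ∑ σ, F σ := by
    rw [← e1]
    exact Fintype.sum_equiv (Equiv.mulRight c) _ _ fun σ => rfl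
  have e3 : ∀ σ, F σ + F (σ * c) + F (σ * c * c) = 0 := by
    intro σ
    rw [hF, hF (σ * c), hF (σ * c * c), hs (σ * c), hs σ, hG (σ * c), hG σ]
    simp only [hmul, c1, c2, c3, c4]
    have h1 := hP (σ (fst i)) (σ (snd i)) (σ (fst j)) (σ (snd j))
    have h2 := hms (σ (snd i)) (σ (snd j))
    have h3 := hms (σ (snd j)) (σ (snd i))
    linear_combination (((Perm.sign σ : ℤ) : ℝ) * G σ) * h1 +
      (((Perm.sign σ : ℤ) : ℝ) * G σ * m (σ (fst i)) (σ (fst j))) * h3
  have e4 : ∑ σ, (F σ + F (σ * c) + F (σ * c * c)) = 0 := Finset.sum_eq_zero fun σ _ => e3 σ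
  rw [Finset.sum_add_distrib, Finset.sum_add_distrib, e1, e2] at e4
  show ∑ σ, F σ = 0
  linarith


/-- sums over functions to `Option ι` when two `none` give zero. -/
theorem sum_option {N : ℕ} {ι : Type*} [Fintype ι] (F : (Fin (N + 1) → Option ι) → ℝ)
    (h0 : ∀ κ i j, i ≠ j → κ i = none → κ j = none → F κ = 0) :
    ∑ κ, F κ = ∑ κ : Fin (N + 1) → ι, F (fun i => some (κ i)) +
      ∑ i : Fin (N + 1), ∑ κ : Fin N → ι,
        F (i.insertNth (α := fun _ => Option ι) none (fun j => some (κ j))) := by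
  classical
  let e : (Fin (N + 1) → ι) ⊕ (Fin (N + 1) × (Fin N → ι)) → (Fin (N + 1) → Option ι) :=
    Sum.elim (fun κ i => some (κ i))
      (fun x => x.1.insertNth (α := fun _ => Option ι) none (fun j => some (x.2 j)))
  have he : Function.Injective e := by
    rintro (κ | ⟨i, κ⟩) (κ' | ⟨i', κ'⟩) h
    · have h1 : ∀ i, some (κ i) = some (κ' i) := fun i => congrFun h i
      congr 1
      funext i
      exact Option.some.inj (h1 i)
    · exfalso
      have h1 := congrFun h i'
      simp [e] at h1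
    · exfalso
      have h1 := congrFun h i
      simp [e] at h1
    · have hi : i = i' := by
        by_contra hne
        have h1 := congrFun h i
        obtain ⟨j, hj⟩ := Fin.exists_succAbove_eq hne
        rw [← hj] at h1
        simp only [e, Sum.elim_inr, Fin.insertNth_apply_succAbove] at h1
        rw [hj, Fin.insertNth_apply_same] at h1
        exact absurd h1 (by simp)
      subst hi
      have h2 : ∀ j, κ j = κ' j := by
        intro j
        have h1 := congrFun h (i.succAbove j)
        simp only [e, Sum.elim_inr, Fin.insertNth_apply_succAbove] at h1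
        exact Option.some.inj h1
      rw [funext h2]
  rw [← Fintype.sum_of_injective e he (fun x => F (e x)) F (fun κ hκ => ?_) (fun x => rfl)]
  · rw [Fintype.sum_sum_type, Fintype.sum_prod_type]
    rfl
  · by_cases h1 : ∃ i, κ i = none
    · obtain ⟨i, hi⟩ := h1
      by_cases h2 : ∃ j, j ≠ i ∧ κ j = none
      · obtain ⟨j, hj, hj'⟩ := h2
        exact h0 κ j i hj hj' hi
      · exfalso
        push Not at h2
        apply hκ
        have h3 : ∀ j : Fin N, ∃ x, κ (i.succAbove j) = some x := by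
          intro j
          exact Option.ne_none_iff_exists'.1 (h2 _ (Fin.succAbove_ne i j))
        choose g hg using h3
        refine ⟨Sum.inr (i, g), ?_⟩
        funext k
        by_cases hk : k = i
        · subst hk
          simp [e, hi]
        · obtain ⟨j, hj⟩ := Fin.exists_succAbove_eq hk
          rw [← hj]
          simp only [e, Sum.elim_inr, Fin.insertNth_apply_succAbove]
          exact (hg j).symm
    · exfalso
      push Not at h1
      apply hκ
      have h3 : ∀ j, ∃ x, κ j = some x := fun j => Option.ne_none_iff_exists'.1 (h1 j)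
      choose g hg using h3
      exact ⟨Sum.inl g, funext fun k => (hg k).symm⟩

/-- the slot of the exceptional form does not matter. -/
theorem mp_insert {N : ℕ} (i : Fin (N + 1)) (m : Fin (2 * (N + 1)) → Fin (2 * (N + 1)) → ℝ)
    (g : Fin N → Fin (2 * (N + 1)) → Fin (2 * (N + 1)) → ℝ) :
    mp (n := N + 1) (i.insertNth (α := fun _ => Fin (2 * (N + 1)) → Fin (2 * (N + 1)) → ℝ) m g) =
      mp (n := N + 1) (Fin.cons (α := fun _ => Fin (2 * (N + 1)) → Fin (2 * (N + 1)) → ℝ) m g) := by
  let π : Perm (Fin (N + 1)) := (finSuccEquiv' 0).trans (finSuccEquiv' i).symm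
  rw [← mp_perm _ π]
  congr 1
  funext k
  refine Fin.cases ?_ (fun j => ?_) k
  · have h : π 0 = i := by simp [π]
    rw [h, Fin.insertNth_apply_same, Fin.cons_zero]
  · have h : π j.succ = i.succAbove j := by
      show (finSuccEquiv' i).symm (finSuccEquiv' 0 j.succ) = _
      rw [← Fin.zero_succAbove j, finSuccEquiv'_succAbove, finSuccEquiv'_symm_some]
    rw [h, Fin.insertNth_apply_succAbove, Fin.cons_succ]


/-- a simple two-form. -/
def sf {M : ℕ} (a b : Fin M → ℝ) (i j : Fin M) : ℝ := a i * b j - a j * b i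

/-- (FE4) the integrand of `R = (a ^ b) (x) (a ^ b) - SUM_x w_x (x) w_x`. -/
theorem gb_simple {N : ℕ} {ι : Type*} [Fintype ι] (R : Arr (2 * (N + 1)))
    (a b : Fin (2 * (N + 1)) → ℝ) (w : ι → Fin (2 * (N + 1)) → Fin (2 * (N + 1)) → ℝ)
    (hR : ∀ i j k l, R i j k l = sf a b i j * sf a b k l - ∑ x, w x i j * w x k l) :
    (-1) ^ (N + 1) * gaussBonnet (N + 1) R =
      ∑ κ : Fin (N + 1) → ι, mp (n := N + 1) (fun i => w (κ i)) ^ 2 -
        (N + 1 : ℝ) * ∑ κ : Fin N → ι, mp (n := N + 1)
          (Fin.cons (α := fun _ => Fin (2 * (N + 1)) → Fin (2 * (N + 1)) → ℝ) (sf a b)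
            (fun i => w (κ i))) ^ 2 := by
  classical
  let c : Option ι → ℝ := fun x => match x with
    | none => 1
    | some _ => -1
  let f : Option ι → Fin (2 * (N + 1)) → Fin (2 * (N + 1)) → ℝ := fun x => match x with
    | none => sf a b
    | some x => w x
  have hR' : ∀ i j k l, R i j k l = ∑ x, c x * f x i j * f x k l := by
    intro i j k l
    rw [hR, Fintype.sum_option]
    simp only [c, f]
    rw [sub_eq_add_neg, ← Finset.sum_neg_distrib]
    congr 1
    · ring
    · refine Finset.sum_congr rfl fun x _ => ?_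
      ring
  rw [gb_fischer R c f hR', sum_option (fun κ => (∏ i, c (κ i)) * mp (fun i => f (κ i)) ^ 2)
    (fun κ i j hij hi hj => by
      rw [mp_two (fun i => f (κ i)) i j hij (sf a b) (fun u v => by unfold sf; ring)
        (fun p q r t => by unfold sf; ring) (by simp only [hi, f]) (by simp only [hj, f])]
      ring)]
  have h1 : ∀ κ : Fin (N + 1) → ι, (∏ i, c (some (κ i))) * mp (fun i => f (some (κ i))) ^ 2 =
      (-1) ^ (N + 1) * mp (n := N + 1) (fun i => w (κ i)) ^ 2 := by
    intro κ
    simp only [c, f, Finset.prod_const, Finset.card_univ, Fintype.card_fin]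
  have h2 : ∀ (i : Fin (N + 1)) (κ : Fin N → ι),
      (∏ k, c ((i.insertNth (α := fun _ => Option ι) none (fun j => some (κ j)) :
        Fin (N + 1) → Option ι) k)) *
        mp (fun k => f ((i.insertNth (α := fun _ => Option ι) none (fun j => some (κ j)) :
          Fin (N + 1) → Option ι) k)) ^ 2 =
      (-1) ^ N * mp (n := N + 1)
          (Fin.cons (α := fun _ => Fin (2 * (N + 1)) → Fin (2 * (N + 1)) → ℝ) (sf a b)
            (fun i => w (κ i))) ^ 2 := by
    intro i κ
    rw [Fin.prod_univ_succAbove _ i]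
    simp only [Fin.insertNth_apply_same, Fin.insertNth_apply_succAbove, c, Finset.prod_const,
      Finset.card_univ, Fintype.card_fin, one_mul]
    congr 2
    rw [← mp_insert i]
    congr 1
    funext k
    by_cases hk : k = i
    · subst hk
      rw [Fin.insertNth_apply_same, Fin.insertNth_apply_same]
    · obtain ⟨j, hj⟩ := Fin.exists_succAbove_eq hk
      rw [← hj, Fin.insertNth_apply_succAbove, Fin.insertNth_apply_succAbove]
  simp only [h1, h2]
  rw [Finset.sum_const, Finset.card_univ, Fintype.card_fin, ← Finset.mul_sum, ← Finset.mul_sum,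
    nsmul_eq_mul]
  have h3 : ((-1 : ℝ)) ^ (N + 1) * (-1) ^ (N + 1) = 1 := by
    rw [← mul_pow]; simp
  have h4 : ((-1 : ℝ)) ^ (N + 1) * (-1) ^ N = -1 := by
    rw [pow_succ, mul_assoc, mul_comm (-1 : ℝ), ← mul_assoc, ← mul_pow]; simp
  push_cast
  linear_combination (∑ κ : Fin (N + 1) → ι, mp (n := N + 1) (fun i => w (κ i)) ^ 2) * h3 +
    ((N + 1 : ℝ) * ∑ κ : Fin N → ι, mp (n := N + 1)
          (Fin.cons (α := fun _ => Fin (2 * (N + 1)) → Fin (2 * (N + 1)) → ℝ) (sf a b)
            (fun i => w (κ i))) ^ 2) * h4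

end Pool.Agent.Lib.H14D.FE
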