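import Mathlib

/-!
# The four point inequality (MP_5a30bb, helper39's theorem)
-/

set_option autoImplicit false

namespace Pool.Agent.Lib.H14D

theorem titu (q r X Y : ℝ) (hX : 0 < X) (hY : 0 < Y) :
    (q + r) ^ 2 / (X + Y) ≤ q ^ 2 / X + r ^ 2 / Y := by
  rw [div_add_div _ _ hX.ne' hY.ne', div_le_div_iff₀ (by positivity) (by positivity)]
  nlinarith [sq_nonneg (q * Y - r * X)]

theorem aux_claim (p q r X Y Z : ℝ) (hX : 0 ≤ X) (hY : 0 ≤ Y) (hZ : 0 < Z) (hXYZ : X + Y ≤ Z)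
    (hq : X = 0 → q = 0) (hr : Y = 0 → r = 0) (h : |p| ≤ |q| + |r|) :
    p ^ 2 / Z ≤ q ^ 2 / X + r ^ 2 / Y := by
  have hp : p ^ 2 ≤ (|q| + |r|) ^ 2 := by
    rw [← sq_abs p]
    exact pow_le_pow_left₀ (abs_nonneg p) h 2
  rcases hX.eq_or_lt with h1 | h1
  · have hq0 := hq h1.symm
    subst hq0
    rw [abs_zero, zero_add, sq_abs] at hp
    rcases hY.eq_or_lt with h2 | h2
    · have hr0 := hr h2.symm
      subst hr0
      have hp0 : p ^ 2 = 0 := le_antisymm (by simpa using hp) (sq_nonneg p)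
      rw [hp0, ← h1, ← h2]
      simp
    · have h3 : p ^ 2 / Z ≤ r ^ 2 / Y := by
        rw [div_le_div_iff₀ hZ h2]
        have h4 : Y ≤ Z := by linarith
        nlinarith [sq_nonneg p, sq_nonneg r]
      have h5 : (0 : ℝ) ^ 2 / X = 0 := by simp
      linarith
  · rcases hY.eq_or_lt with h2 | h2
    · have hr0 := hr h2.symm
      subst hr0
      rw [abs_zero, add_zero, sq_abs] at hp
      have h3 : p ^ 2 / Z ≤ q ^ 2 / X := by
        rw [div_le_div_iff₀ hZ h1]
        have h4 : X ≤ Z := by linarith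
        nlinarith [sq_nonneg p, sq_nonneg q]
      have h5 : (0 : ℝ) ^ 2 / Y = 0 := by simp
      linarith
    · have h3 := titu |q| |r| X Y h1 h2
      rw [sq_abs, sq_abs] at h3
      refine le_trans ?_ h3
      rw [div_le_div_iff₀ hZ (by positivity)]
      have h4 : 0 ≤ (|q| + |r|) ^ 2 := sq_nonneg _
      nlinarith [sq_nonneg p]

/-- the three terms, one of `a, b, g` larger than the sum of the others. -/
theorem aux_big (L a b g p q r : ℝ) (hL : 0 ≤ L) (hb : 0 ≤ b) (hg : 0 ≤ g) (ha : b + g < a)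
    (hq : b = 0 → q = 0) (hr : g = 0 → r = 0) (h : |p| ≤ |q| + |r|) :
    0 ≤ 2 * p ^ 2 * (b + g - a) / (a * (L + a)) + 2 * q ^ 2 * (a + g - b) / (b * (L + b)) +
      2 * r ^ 2 * (a + b - g) / (g * (L + g)) := by
  have ha0 : 0 < a := by linarith
  have hX : 0 ≤ b * (L + b) := by positivity
  have hY : 0 ≤ g * (L + g) := by positivity
  have hZ : 0 < a * (L + a) := by positivity
  have hXYZ : b * (L + b) + g * (L + g) ≤ a * (L + a) := by nlinarith [mul_nonneg hb hg]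
  have hqX : b * (L + b) = 0 → q = 0 := by
    intro h0
    rcases mul_eq_zero.1 h0 with h1 | h1
    · exact hq h1
    · exact hq (by linarith)
  have hrY : g * (L + g) = 0 → r = 0 := by
    intro h0
    rcases mul_eq_zero.1 h0 with h1 | h1
    · exact hr h1
    · exact hr (by linarith)
  have hc := aux_claim p q r _ _ _ hX hY hZ hXYZ hqX hrY h
  set s : ℝ := a - b - g with hs
  have hs0 : 0 < s := by rw [hs]; linarith
  have e1 : 2 * p ^ 2 * (b + g - a) / (a * (L + a)) = -(2 * s) * (p ^ 2 / (a * (L + a))) := by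
    rw [hs]
    ring
  have e2 : (2 * s) * (q ^ 2 / (b * (L + b))) ≤ 2 * q ^ 2 * (a + g - b) / (b * (L + b)) := by
    have h1 : 2 * q ^ 2 * (a + g - b) / (b * (L + b)) = (2 * (a + g - b)) * (q ^ 2 / (b * (L + b))) := by
      ring
    rw [h1]
    refine mul_le_mul_of_nonneg_right ?_ (div_nonneg (sq_nonneg q) hX)
    rw [hs]
    linarith
  have e3 : (2 * s) * (r ^ 2 / (g * (L + g))) ≤ 2 * r ^ 2 * (a + b - g) / (g * (L + g)) := by
    have h1 : 2 * r ^ 2 * (a + b - g) / (g * (L + g)) = (2 * (a + b - g)) * (r ^ 2 / (g * (L + g))) := by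
      ring
    rw [h1]
    refine mul_le_mul_of_nonneg_right ?_ (div_nonneg (sq_nonneg r) hY)
    rw [hs]
    linarith
  have e4 := mul_le_mul_of_nonneg_left hc (by linarith : (0 : ℝ) ≤ 2 * s)
  rw [e1]
  linarith [mul_add (2 * s) (q ^ 2 / (b * (L + b))) (r ^ 2 / (g * (L + g)))]

/-- the three terms. -/
theorem aux_three (L a b g p q r : ℝ) (hL : 0 ≤ L) (ha : 0 ≤ a) (hb : 0 ≤ b) (hg : 0 ≤ g)
    (hp : a = 0 → p = 0) (hq : b = 0 → q = 0) (hr : g = 0 → r = 0) (h : p - q + r = 0) :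
    0 ≤ 2 * p ^ 2 * (b + g - a) / (a * (L + a)) + 2 * q ^ 2 * (a + g - b) / (b * (L + b)) +
      2 * r ^ 2 * (a + b - g) / (g * (L + g)) := by
  have t1 : |p| ≤ |q| + |r| := by
    have : p = q - r := by linarith
    rw [this]
    exact abs_sub _ _
  have t2 : |q| ≤ |p| + |r| := by
    have : q = p + r := by linarith
    rw [this]
    exact abs_add_le _ _
  have t3 : |r| ≤ |p| + |q| := by
    have : r = q - p := by linarith
    rw [this]
    have := abs_sub q p
    linarith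
  rcases lt_or_ge (b + g) a with h1 | h1
  · exact aux_big L a b g p q r hL hb hg h1 hq hr t1
  rcases lt_or_ge (a + g) b with h2 | h2
  · have := aux_big L b a g q p r hL ha hg h2 hp hr t2
    have e : b + a - g = a + b - g := by ring
    rw [e] at this
    linarith
  rcases lt_or_ge (a + b) g with h3 | h3
  · have := aux_big L g a b r p q hL ha hb h3 hp hq t3
    have e1 : g + b - a = b + g - a := by ring
    have e2 : g + a - b = a + g - b := by ring
    rw [e1, e2] at this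
    linarith
  · have n1 : 0 ≤ 2 * p ^ 2 * (b + g - a) / (a * (L + a)) :=
      div_nonneg (mul_nonneg (by positivity) (by linarith)) (by positivity)
    have n2 : 0 ≤ 2 * q ^ 2 * (a + g - b) / (b * (L + b)) :=
      div_nonneg (mul_nonneg (by positivity) (by linarith)) (by positivity)
    have n3 : 0 ≤ 2 * r ^ 2 * (a + b - g) / (g * (L + g)) :=
      div_nonneg (mul_nonneg (by positivity) (by linarith)) (by positivity)
    linarith

/-- one term: `w, w'` the weights, `l = m^2/w`, `l' = m'^2/w'`, `X` the sum of the four cross terms. -/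
theorem term_bound (L w w' m m' X : ℝ) (hL : 0 ≤ L) (hw : 0 ≤ w) (hw' : 0 ≤ w')
    (hm : w = 0 → m = 0) (hm' : w' = 0 → m' = 0) (hX : 0 ≤ X) :
    2 * (m * m') ^ 2 * (X - (m ^ 2 / w + m' ^ 2 / w')) /
        ((m ^ 2 / w + m' ^ 2 / w') * (L + (m ^ 2 / w + m' ^ 2 / w'))) ≤
      w * w' * ((m ^ 2 / w + m' ^ 2 / w') * X / 2 - 2 * (m ^ 2 / w) * (m' ^ 2 / w')) /
        (L + (m ^ 2 / w + m' ^ 2 / w')) := by
  have hl : 0 ≤ m ^ 2 / w := div_nonneg (sq_nonneg m) hw
  have hl' : 0 ≤ m' ^ 2 / w' := div_nonneg (sq_nonneg m') hw'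
  have e1 : w * (m ^ 2 / w) = m ^ 2 := by
    rcases hw.eq_or_lt with h | h
    · rw [hm h.symm, ← h]
      simp
    · field_simp
  have e2 : w' * (m' ^ 2 / w') = m' ^ 2 := by
    rcases hw'.eq_or_lt with h | h
    · rw [hm' h.symm, ← h]
      simp
    · field_simp
  set l := m ^ 2 / w with hldef
  set l' := m' ^ 2 / w' with hldef'
  have hA : w * w' * (l * l') = (m * m') ^ 2 := by
    have : w * w' * (l * l') = (w * l) * (w' * l') := by ring
    rw [this, e1, e2]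
    ring
  rcases (add_nonneg hl hl').eq_or_lt with h0 | h0
  · have hl0 : l = 0 := by linarith
    have hl0' : l' = 0 := by linarith
    rw [hl0, hl0']
    simp
  · have hden : 0 < L + (l + l') := by linarith
    rw [div_le_div_iff₀ (mul_pos h0 hden) hden]
    have h1 : 2 * (m * m') ^ 2 * (X - (l + l')) ≤
        w * w' * ((l + l') * X / 2 - 2 * l * l') * (l + l') := by
      rw [← hA]
      have h2 : 0 ≤ w * w' * X * (l - l') ^ 2 := by positivity
      nlinarith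
    calc 2 * (m * m') ^ 2 * (X - (l + l')) * (L + (l + l'))
        ≤ w * w' * ((l + l') * X / 2 - 2 * l * l') * (l + l') * (L + (l + l')) :=
          mul_le_mul_of_nonneg_right h1 hden.le
      _ = w * w' * ((l + l') * X / 2 - 2 * l * l') * ((l + l') * (L + (l + l'))) := by ring

/-- THE FOUR POINT INEQUALITY. -/
theorem four_point (L w12 w34 w13 w24 w14 w23 m12 m34 m13 m24 m14 m23 : ℝ) (hL : 0 ≤ L)
    (h12 : 0 ≤ w12) (h34 : 0 ≤ w34) (h13 : 0 ≤ w13) (h24 : 0 ≤ w24) (h14 : 0 ≤ w14)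
    (h23 : 0 ≤ w23) (z12 : w12 = 0 → m12 = 0) (z34 : w34 = 0 → m34 = 0) (z13 : w13 = 0 → m13 = 0)
    (z24 : w24 = 0 → m24 = 0) (z14 : w14 = 0 → m14 = 0) (z23 : w23 = 0 → m23 = 0)
    (hP : m12 * m34 - m13 * m24 + m14 * m23 = 0) :
    0 ≤ w12 * w34 * ((m12 ^ 2 / w12 + m34 ^ 2 / w34) *
          ((m13 ^ 2 / w13 + m24 ^ 2 / w24) + (m14 ^ 2 / w14 + m23 ^ 2 / w23)) / 2 -
          2 * (m12 ^ 2 / w12) * (m34 ^ 2 / w34)) / (L + (m12 ^ 2 / w12 + m34 ^ 2 / w34)) +
      w13 * w24 * ((m13 ^ 2 / w13 + m24 ^ 2 / w24) *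
          ((m12 ^ 2 / w12 + m34 ^ 2 / w34) + (m14 ^ 2 / w14 + m23 ^ 2 / w23)) / 2 -
          2 * (m13 ^ 2 / w13) * (m24 ^ 2 / w24)) / (L + (m13 ^ 2 / w13 + m24 ^ 2 / w24)) +
      w14 * w23 * ((m14 ^ 2 / w14 + m23 ^ 2 / w23) *
          ((m12 ^ 2 / w12 + m34 ^ 2 / w34) + (m13 ^ 2 / w13 + m24 ^ 2 / w24)) / 2 -
          2 * (m14 ^ 2 / w14) * (m23 ^ 2 / w23)) / (L + (m14 ^ 2 / w14 + m23 ^ 2 / w23)) := by
  have nn : ∀ w m : ℝ, 0 ≤ w → 0 ≤ m ^ 2 / w := fun w m hw => div_nonneg (sq_nonneg m) hw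
  have zz : ∀ w w' m m' : ℝ, 0 ≤ w → 0 ≤ w' → (w = 0 → m = 0) → (w' = 0 → m' = 0) →
      m ^ 2 / w + m' ^ 2 / w' = 0 → m * m' = 0 := by
    intro w w' m m' hw hw' hm hm' h
    have h1 : m ^ 2 / w = 0 := by linarith [nn w m hw, nn w' m' hw']
    rcases div_eq_zero_iff.1 h1 with h2 | h2
    · rw [pow_eq_zero_iff two_ne_zero] at h2
      rw [h2, zero_mul]
    · rw [hm h2, zero_mul]
  have a0 := add_nonneg (nn w12 m12 h12) (nn w34 m34 h34)
  have b0 := add_nonneg (nn w13 m13 h13) (nn w24 m24 h24)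
  have g0 := add_nonneg (nn w14 m14 h14) (nn w23 m23 h23)
  have k := aux_three L _ _ _ (m12 * m34) (m13 * m24) (m14 * m23) hL a0 b0 g0
    (zz w12 w34 m12 m34 h12 h34 z12 z34) (zz w13 w24 m13 m24 h13 h24 z13 z24)
    (zz w14 w23 m14 m23 h14 h23 z14 z23) hP
  have t1 := term_bound L w12 w34 m12 m34 _ hL h12 h34 z12 z34 (add_nonneg b0 g0)
  have t2 := term_bound L w13 w24 m13 m24 _ hL h13 h24 z13 z24 (add_nonneg a0 g0)
  have t3 := term_bound L w14 w23 m14 m23 _ hL h14 h23 z14 z23 (add_nonneg a0 b0)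
  linarith

end Pool.Agent.Lib.H14D
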