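import Pool.Agent.Lib.H14D.Matching
import Pool.Agent.Lib.H69.Hopf.Defs

/-!
# The Gauss-Bonnet integrand of `-R = W - m ⊗ m` (MP_5a30bb, helper39's theorem)
For `R i j k l = m i j * m k l - W i j * (δ_ik δ_jl - δ_il δ_jk)` with `m` skew and simple, the integrand is a
positive multiple of the sum over matchings of `matching_ineq`.
-/

set_option autoImplicit false
set_option linter.unusedSectionVars false

namespace Pool.Agent.Lib.H14D

open Finset Equiv

variable {ι V : Type} [Fintype ι] [DecidableEq ι] [Fintype V] [DecidableEq V]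

/-- `1` if `π` fixes both positions of the pair `i`, `-1` if it exchanges them. -/
noncomputable def dd (π : Perm (ι × Bool)) (i : ι) : ℝ :=
  (if π (i, false) = (i, false) then 1 else 0) * (if π (i, true) = (i, true) then 1 else 0) -
    (if π (i, false) = (i, true) then 1 else 0) * (if π (i, true) = (i, false) then 1 else 0)

theorem dd_cases (π : Perm (ι × Bool)) (i : ι) :
    (dd π i = 0) ∨ (dd π i = 1 ∧ π (i, false) = (i, false) ∧ π (i, true) = (i, true)) ∨
      (dd π i = -1 ∧ π (i, false) = (i, true) ∧ π (i, true) = (i, false)) := by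
  unfold dd
  by_cases h1 : π (i, false) = (i, false)
  · by_cases h2 : π (i, true) = (i, true)
    · right; left
      refine ⟨?_, h1, h2⟩
      rw [h1, h2]
      simp
    · left
      rw [h1]
      simp [h2]
  · by_cases h2 : π (i, false) = (i, true)
    · by_cases h3 : π (i, true) = (i, false)
      · right; right
        refine ⟨?_, h2, h3⟩
        rw [h2, h3]
        simp
      · left
        simp [h1, h3]
    · left
      simp [h1, h2]

/-- the constant. -/
noncomputable def cc (ι : Type) [Fintype ι] [DecidableEq ι] : ℝ :=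
  ∑ π : Perm (ι × Bool), ((Perm.sign π : ℤ) : ℝ) * ∏ i, dd π i

theorem dd_mul_swap (π : Perm (ι × Bool)) (i : ι) (h : dd π i = -1) :
    ∀ j, dd (Equiv.swap (i, false) (i, true) * π) j = if j = i then 1 else dd π j := by
  intro j
  rcases dd_cases π i with h1 | ⟨h1, -, -⟩ | ⟨-, h1, h2⟩
  · rw [h1] at h; norm_num at h
  · rw [h1] at h; norm_num at h
  · split_ifs with hj
    · subst hj
      unfold dd
      rw [Perm.mul_apply, Perm.mul_apply, h1, h2]
      simp
    · have e1 : ∀ b : Bool, π (j, b) ≠ (i, true) := by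
        intro b hb
        rw [← h1] at hb
        have := π.injective hb
        simp at this
        exact hj this.1
      have e2 : ∀ b : Bool, π (j, b) ≠ (i, false) := by
        intro b hb
        rw [← h2] at hb
        have := π.injective hb
        simp at this
        exact hj this.1
      unfold dd
      rw [Perm.mul_apply, Perm.mul_apply, Equiv.swap_apply_of_ne_of_ne (e2 _) (e1 _),
        Equiv.swap_apply_of_ne_of_ne (e2 _) (e1 _)]

theorem sign_dd (k : ℕ) : ∀ π : Perm (ι × Bool), (univ.filter fun i => dd π i = -1).card = k →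
    (∀ i, dd π i ≠ 0) → ((Perm.sign π : ℤ) : ℝ) * ∏ i, dd π i = 1 := by
  induction k with
  | zero =>
    intro π hk h0
    rw [card_eq_zero, filter_eq_empty_iff] at hk
    have h1 : ∀ i, dd π i = 1 ∧ π (i, false) = (i, false) ∧ π (i, true) = (i, true) := by
      intro i
      rcases dd_cases π i with h | h | ⟨h, -, -⟩
      · exact absurd h (h0 i)
      · exact h
      · exact absurd h (hk (mem_univ i))
    have h2 : π = 1 := by
      ext1 ⟨i, b⟩
      cases b
      · exact (h1 i).2.1
      · exact (h1 i).2.2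
    rw [Finset.prod_congr rfl fun i _ => (h1 i).1, h2]
    simp
  | succ k ih =>
    intro π hk h0
    obtain ⟨i, hi⟩ : (univ.filter fun i => dd π i = -1).Nonempty := by
      rw [← card_pos, hk]
      exact Nat.succ_pos k
    have hi' : dd π i = -1 := (mem_filter.1 hi).2
    have h1 := dd_mul_swap π i hi'
    have h2 : (univ.filter fun j => dd (Equiv.swap (i, false) (i, true) * π) j = -1) =
        (univ.filter fun j => dd π j = -1).erase i := by
      ext j
      simp only [mem_filter, mem_univ, true_and, mem_erase]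
      rw [h1 j]
      by_cases hj : j = i
      · simp [hj]
        norm_num
      · simp [hj]
    have h3 := ih (Equiv.swap (i, false) (i, true) * π)
      (by rw [h2, card_erase_of_mem hi, hk]; rfl)
      (by
        intro j
        rw [h1 j]
        split_ifs
        · norm_num
        · exact h0 j)
    rw [← Finset.mul_prod_erase _ _ (mem_univ i)] at h3 ⊢
    rw [h1 i, if_pos rfl] at h3
    have h4 : ∏ j ∈ univ.erase i, dd (Equiv.swap (i, false) (i, true) * π) j =
        ∏ j ∈ univ.erase i, dd π j :=
      Finset.prod_congr rfl fun j hj => by rw [h1 j, if_neg (ne_of_mem_erase hj)]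
    rw [h4, Perm.sign_mul, Perm.sign_swap (by simp)] at h3
    rw [hi']
    push_cast at h3
    linarith

theorem sign_dd_nonneg (π : Perm (ι × Bool)) : 0 ≤ ((Perm.sign π : ℤ) : ℝ) * ∏ i, dd π i := by
  by_cases h : ∀ i, dd π i ≠ 0
  · rw [sign_dd _ π rfl h]
    norm_num
  · push Not at h
    obtain ⟨i, hi⟩ := h
    rw [Finset.prod_eq_zero (mem_univ i) hi, mul_zero]

theorem cc_pos : 1 ≤ cc ι := by
  unfold cc
  have h1 : ((Perm.sign (1 : Perm (ι × Bool)) : ℤ) : ℝ) * ∏ i, dd (1 : Perm (ι × Bool)) i = 1 := by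
    simp [dd]
  calc (1 : ℝ) = ((Perm.sign (1 : Perm (ι × Bool)) : ℤ) : ℝ) * ∏ i, dd (1 : Perm (ι × Bool)) i :=
        h1.symm
    _ ≤ _ := Finset.single_le_sum (f := fun π : Perm (ι × Bool) =>
        ((Perm.sign π : ℤ) : ℝ) * ∏ i, dd π i) (fun π _ => sign_dd_nonneg π) (mem_univ 1)

/-- the remaining pair. -/
theorem rest_pair (m : V → V → ℝ) (hms : ∀ u v, m u v = - m v u) (s : ι × Bool ≃ V)
    (π : Perm (ι × Bool)) (i : ι) :
    (∏ j ∈ univ.erase i, dd π j) * m (s (π (i, false))) (s (π (i, true))) =
      (∏ j, dd π j) * m (s (i, false)) (s (i, true)) := by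
  rw [← Finset.mul_prod_erase _ _ (mem_univ i)]
  by_cases h : ∀ j ∈ univ.erase i, dd π j ≠ 0
  · have h1 : ∀ b b' : Bool, ∀ k, π (i, b) = (k, b') → k = i := by
      intro b b' k hk
      by_contra hne
      rcases dd_cases π k with h2 | ⟨-, h2, h3⟩ | ⟨-, h2, h3⟩
      · exact h k (mem_erase.2 ⟨hne, mem_univ k⟩) h2
      · cases b'
        · rw [← h2] at hk
          have := π.injective hk
          simp at this
          exact hne this.1.symm
        · rw [← h3] at hk
          have := π.injective hk
          simp at this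
          exact hne this.1.symm
      · cases b'
        · rw [← h3] at hk
          have := π.injective hk
          simp at this
          exact hne this.1.symm
        · rw [← h2] at hk
          have := π.injective hk
          simp at this
          exact hne this.1.symm
    have h2 : (dd π i = 1 ∧ π (i, false) = (i, false) ∧ π (i, true) = (i, true)) ∨
        (dd π i = -1 ∧ π (i, false) = (i, true) ∧ π (i, true) = (i, false)) := by
      rcases hf : π (i, false) with ⟨k, b⟩
      rcases ht : π (i, true) with ⟨k', b'⟩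
      have hk := h1 _ _ _ hf
      have hk' := h1 _ _ _ ht
      subst hk
      subst hk'
      have hbb : b ≠ b' := by
        rintro rfl
        rw [← ht] at hf
        have := π.injective hf
        simp at this
      cases b <;> cases b'
      · exact absurd rfl hbb
      · left
        refine ⟨?_, rfl, rfl⟩
        unfold dd
        rw [hf, ht]
        simp
      · right
        refine ⟨?_, rfl, rfl⟩
        unfold dd
        rw [hf, ht]
        simp
      · exact absurd rfl hbb
    rcases h2 with ⟨h2, h3, h4⟩ | ⟨h2, h3, h4⟩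
    · rw [h2, h3, h4]
      ring
    · rw [h2, h3, h4, hms (s (i, true)) (s (i, false))]
      ring
  · push Not at h
    obtain ⟨j, hj, hj'⟩ := h
    rw [Finset.prod_eq_zero hj hj']
    ring

/-- two factors of `m ⊗ m` cancel. -/
theorem two_cancel (m : V → V → ℝ)
    (hms : ∀ u v, m u v = - m v u)
    (hP : ∀ p q r t, m p q * m r t - m p r * m q t + m p t * m q r = 0) (s : ι × Bool ≃ V)
    (T : Finset ι) {i j : ι} (hi : i ∈ T) (hj : j ∈ T) (hij : i ≠ j) (G : ι → ℝ) :
    ∑ π : Perm (ι × Bool), ((Perm.sign π : ℤ) : ℝ) *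
      ((∏ l ∈ T, G l * m (s (π (l, false))) (s (π (l, true)))) * ∏ l ∈ univ \ T, dd π l) = 0 := by
  set f : Perm (ι × Bool) → ℝ := fun π => ((Perm.sign π : ℤ) : ℝ) *
      ((∏ l ∈ T, G l * m (s (π (l, false))) (s (π (l, true)))) * ∏ l ∈ univ \ T, dd π l) with hf
  have hsr : Perm.sign (rho i j) = 1 := by
    unfold rho
    rw [Perm.sign_mul, Perm.sign_swap (by simp [hij]), Perm.sign_swap (by simp [hij])]
    simp
  have h1 : ∑ π, f (π * rho i j) = ∑ π, f π :=
    Fintype.sum_equiv (Equiv.mulRight (rho i j)) _ _ fun _ => rfl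
  have h2 : ∑ π, f (π * rho i j * rho i j) = ∑ π, f π :=
    (Fintype.sum_equiv (Equiv.mulRight (rho i j)) (fun π => f (π * rho i j * rho i j))
      (fun π => f (π * rho i j)) fun _ => rfl).trans h1
  have h3 : ∀ π, f π + f (π * rho i j) + f (π * rho i j * rho i j) = 0 := by
    intro π
    have hd : ∀ (π : Perm (ι × Bool)), ∏ l ∈ univ \ T, dd (π * rho i j) l =
        ∏ l ∈ univ \ T, dd π l := by
      intro π
      refine Finset.prod_congr rfl fun l hl => ?_
      have hl' := (mem_sdiff.1 hl).2
      have hli : l ≠ i := fun h => hl' (h ▸ hi)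
      have hlj : l ≠ j := fun h => hl' (h ▸ hj)
      unfold dd
      rw [Perm.mul_apply, Perm.mul_apply, rho_l hli hlj, rho_l hli hlj]
    have hT : ∀ (F : ι → ℝ), ∏ l ∈ T, F l = F i * F j * ∏ l ∈ (T.erase i).erase j, F l := by
      intro F
      rw [← Finset.mul_prod_erase _ _ hi, ← Finset.mul_prod_erase _ _ (mem_erase.2 ⟨hij.symm, hj⟩)]
      ring
    have hr : ∀ (π : Perm (ι × Bool)), ∏ l ∈ (T.erase i).erase j,
        G l * m (s ((π * rho i j) (l, false))) (s ((π * rho i j) (l, true))) =
        ∏ l ∈ (T.erase i).erase j, G l * m (s (π (l, false))) (s (π (l, true))) := by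
      intro π
      refine Finset.prod_congr rfl fun l hl => ?_
      have hlj : l ≠ j := (mem_erase.1 hl).1
      have hli : l ≠ i := (mem_erase.1 (mem_erase.1 hl).2).1
      rw [Perm.mul_apply, Perm.mul_apply, rho_l hli hlj, rho_l hli hlj]
    simp only [hf]
    rw [hd (π * rho i j), hd π, hT, hT, hT, hr (π * rho i j), hr π]
    simp only [Perm.sign_mul, hsr, mul_one, Perm.mul_apply, rho_if hij, rho_it hij, rho_jf hij,
      rho_jt]
    generalize s (π (i, false)) = p
    generalize s (π (i, true)) = q
    generalize s (π (j, false)) = r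
    generalize s (π (j, true)) = t
    have key := hP p q r t
    rw [hms t q]
    linear_combination (((Perm.sign π : ℤ) : ℝ) * G i * G j *
      (∏ l ∈ (T.erase i).erase j, G l * m (s (π (l, false))) (s (π (l, true)))) *
      ∏ l ∈ univ \ T, dd π l) * key
  have h4 : ∑ π, (f π + f (π * rho i j) + f (π * rho i j * rho i j)) = 0 :=
    Finset.sum_eq_zero fun π _ => h3 π
  rw [Finset.sum_add_distrib, Finset.sum_add_distrib, h1, h2] at h4
  linarith

/-- a sum over subsets, in which the sets with two elements do not count. -/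
theorem sum_small (F : Finset ι → ℝ) (hF : ∀ T : Finset ι, ∀ i ∈ T, ∀ j ∈ T, i ≠ j → F T = 0) :
    ∑ T ∈ (univ : Finset ι).powerset, F T = F ∅ + ∑ i, F {i} := by
  have h1 : ∑ T ∈ insert ∅ ((univ : Finset ι).image fun i => ({i} : Finset ι)), F T =
      F ∅ + ∑ i, F {i} := by
    rw [Finset.sum_insert, Finset.sum_image]
    · intro i _ j _ h
      exact Finset.singleton_injective h
    · intro h
      obtain ⟨i, -, hi⟩ := mem_image.1 h
      exact absurd hi (Finset.singleton_ne_empty i)
  rw [← h1]
  symm
  refine Finset.sum_subset (fun T _ => mem_powerset.2 (subset_univ T)) fun T _ hT => ?_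
  rw [mem_insert, not_or] at hT
  obtain ⟨i, hi⟩ := Finset.nonempty_iff_ne_empty.2 hT.1
  by_cases h : ∃ j ∈ T, i ≠ j
  · obtain ⟨j, hj, hij⟩ := h
    exact hF T i hi j hj hij
  · push Not at h
    exfalso
    apply hT.2
    refine mem_image.2 ⟨i, mem_univ i, ?_⟩
    ext j
    rw [mem_singleton]
    constructor
    · rintro rfl
      exact hi
    · intro hj
      exact (h j hj).symm

/-- the sum over the second permutation. -/
theorem inner_sum (W m : V → V → ℝ) (hms : ∀ u v, m u v = - m v u)
    (hP : ∀ p q r t, m p q * m r t - m p r * m q t + m p t * m q r = 0) (s : ι × Bool ≃ V) :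
    ∑ π : Perm (ι × Bool), ((Perm.sign π : ℤ) : ℝ) *
      ∏ i, (W (s (i, false)) (s (i, true)) * dd π i -
        m (s (i, false)) (s (i, true)) * m (s (π (i, false))) (s (π (i, true)))) =
    cc ι * (∏ i, W (s (i, false)) (s (i, true)) -
      ∑ i, m (s (i, false)) (s (i, true)) ^ 2 * ∏ j ∈ univ.erase i, W (s (j, false)) (s (j, true))) := by
  set w : ι → ℝ := fun i => W (s (i, false)) (s (i, true)) with hw
  set G : ι → ℝ := fun i => - m (s (i, false)) (s (i, true)) with hG
  have h1 : ∀ π : Perm (ι × Bool), ∏ i, (w i * dd π i -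
        m (s (i, false)) (s (i, true)) * m (s (π (i, false))) (s (π (i, true)))) =
      ∑ T ∈ (univ : Finset ι).powerset, (∏ l ∈ univ \ T, w l) *
        ((∏ l ∈ T, G l * m (s (π (l, false))) (s (π (l, true)))) * ∏ l ∈ univ \ T, dd π l) := by
    intro π
    have h2 : ∀ i, w i * dd π i -
        m (s (i, false)) (s (i, true)) * m (s (π (i, false))) (s (π (i, true))) =
        G i * m (s (π (i, false))) (s (π (i, true))) + w i * dd π i := by
      intro i
      simp only [hG]
      ring
    rw [Finset.prod_congr rfl fun i _ => h2 i, Finset.prod_add]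
    refine Finset.sum_congr rfl fun T _ => ?_
    rw [Finset.prod_mul_distrib (s := univ \ T)]
    ring
  have h2 : ∑ π : Perm (ι × Bool), ((Perm.sign π : ℤ) : ℝ) *
      ∏ i, (w i * dd π i -
        m (s (i, false)) (s (i, true)) * m (s (π (i, false))) (s (π (i, true)))) =
      ∑ T ∈ (univ : Finset ι).powerset, (∏ l ∈ univ \ T, w l) * ∑ π : Perm (ι × Bool),
        ((Perm.sign π : ℤ) : ℝ) *
        ((∏ l ∈ T, G l * m (s (π (l, false))) (s (π (l, true)))) * ∏ l ∈ univ \ T, dd π l) := by
    rw [Finset.sum_congr rfl fun π _ => by rw [h1 π, Finset.mul_sum]]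
    rw [Finset.sum_comm]
    refine Finset.sum_congr rfl fun T _ => ?_
    rw [Finset.mul_sum]
    refine Finset.sum_congr rfl fun π _ => ?_
    ring
  have h3 := h2.trans (sum_small _ fun T i hi j hj hij => by
    rw [two_cancel m hms hP s T hi hj hij G, mul_zero])
  refine h3.trans ?_
  have h4 : ∑ π : Perm (ι × Bool), ((Perm.sign π : ℤ) : ℝ) *
      ((∏ l ∈ (∅ : Finset ι), G l * m (s (π (l, false))) (s (π (l, true)))) *
        ∏ l ∈ univ \ (∅ : Finset ι), dd π l) = cc ι := by
    unfold cc
    refine Finset.sum_congr rfl fun π _ => ?_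
    rw [Finset.prod_empty, one_mul, Finset.sdiff_empty]
  have h5 : ∀ i, ∑ π : Perm (ι × Bool), ((Perm.sign π : ℤ) : ℝ) *
      ((∏ l ∈ ({i} : Finset ι), G l * m (s (π (l, false))) (s (π (l, true)))) *
        ∏ l ∈ univ \ {i}, dd π l) = G i * m (s (i, false)) (s (i, true)) * cc ι := by
    intro i
    unfold cc
    rw [Finset.mul_sum]
    refine Finset.sum_congr rfl fun π _ => ?_
    rw [Finset.prod_singleton, ← Finset.erase_eq]
    have h6 := rest_pair m hms s π i
    linear_combination (((Perm.sign π : ℤ) : ℝ) * G i) * h6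
  rw [h4, Finset.sum_congr rfl fun i _ => by rw [h5 i], Finset.sdiff_empty, mul_sub, Finset.mul_sum,
    mul_comm]
  have h6 : ∀ i, (∏ l ∈ univ \ {i}, w l) * (G i * m (s (i, false)) (s (i, true)) * cc ι) =
      - (cc ι * (m (s (i, false)) (s (i, true)) ^ 2 * ∏ j ∈ univ.erase i, w j)) := by
    intro i
    rw [← Finset.erase_eq]
    simp only [hG]
    ring
  rw [Finset.sum_congr rfl fun i _ => h6 i, Finset.sum_neg_distrib, sub_eq_add_neg]

/-! ## The integrand -/

open Pool.Agent.H69Hopf

/-- the positions. -/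
noncomputable def pos (n : ℕ) : Fin n × Bool ≃ Fin (2 * n) :=
  Equiv.ofBijective (fun x => if x.2 then snd x.1 else fst x.1) (by
    rw [Fintype.bijective_iff_injective_and_card]
    refine ⟨?_, by simp [mul_comm]⟩
    rintro ⟨i, b⟩ ⟨j, b'⟩ h
    cases b <;> cases b' <;> simp [fst, snd] at h ⊢ <;> omega)

theorem pos_false {n : ℕ} (i : Fin n) : pos n (i, false) = fst i := rfl

theorem pos_true {n : ℕ} (i : Fin n) : pos n (i, true) = snd i := rfl

/-- the integrand as a sum over orders of the index set. -/
theorem gaussBonnet_eq (n : ℕ) (R : Arr (2 * n)) :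
    gaussBonnet n R = ∑ s : Fin n × Bool ≃ Fin (2 * n), ∑ π : Perm (Fin n × Bool),
      ((Perm.sign π : ℤ) : ℝ) *
        ∏ i, R (s (i, false)) (s (i, true)) (s (π (i, false))) (s (π (i, true))) := by
  unfold gaussBonnet
  let A : Perm (Fin (2 * n)) ≃ (Fin n × Bool ≃ Fin (2 * n)) :=
    { toFun := fun σ => (pos n).trans σ
      invFun := fun s => (pos n).symm.trans s
      left_inv := fun σ => by ext x; simp
      right_inv := fun s => by ext x; simp }
  refine Fintype.sum_equiv A _ _ fun σ => ?_
  let B : Perm (Fin (2 * n)) ≃ Perm (Fin n × Bool) :=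
    { toFun := fun τ => ((pos n).trans (σ⁻¹ * τ)).trans (pos n).symm
      invFun := fun π => σ * (((pos n).symm.trans π).trans (pos n))
      left_inv := fun τ => by ext x; simp
      right_inv := fun π => by ext x <;> simp }
  refine Fintype.sum_equiv B _ _ fun τ => ?_
  have h1 : Perm.sign (B τ) = Perm.sign σ * Perm.sign τ := by
    show Perm.sign (((pos n).trans (σ⁻¹ * τ)).trans (pos n).symm) = _
    rw [Perm.sign_trans_trans_symm, Perm.sign_mul, Perm.sign_inv]
  have h2 : ∀ x, (A σ) ((B τ) x) = τ (pos n x) := by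
    intro x
    show σ (pos n ((pos n).symm ((σ⁻¹ * τ) (pos n x)))) = _
    rw [Equiv.apply_symm_apply, Perm.mul_apply]
    exact σ.apply_symm_apply _
  rw [h1]
  push_cast
  congr 1
  refine Finset.prod_congr rfl fun i _ => ?_
  rw [h2, h2]
  rfl

/-- THE INTEGRAND of `-R = W - m ⊗ m` in the sum form. -/
theorem gaussBonnet_sum (n : ℕ) (R : Arr (2 * n)) (W m : Fin (2 * n) → Fin (2 * n) → ℝ)
    (hR : ∀ i j k l, R i j k l = m i j * m k l - W i j *
      ((if i = k then 1 else 0) * (if j = l then 1 else 0) -
        (if i = l then 1 else 0) * (if j = k then 1 else 0)))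
    (hms : ∀ u v, m u v = - m v u)
    (hP : ∀ p q r t, m p q * m r t - m p r * m q t + m p t * m q r = 0) :
    (-1) ^ n * gaussBonnet n R = cc (Fin n) * ∑ s : Fin n × Bool ≃ Fin (2 * n),
      (∏ i, W (s (i, false)) (s (i, true)) -
        ∑ i, m (s (i, false)) (s (i, true)) ^ 2 *
          ∏ j ∈ univ.erase i, W (s (j, false)) (s (j, true))) := by
  rw [gaussBonnet_eq, Finset.mul_sum, Finset.mul_sum]
  refine Finset.sum_congr rfl fun s _ => ?_
  rw [← inner_sum W m hms hP s, Finset.mul_sum]
  refine Finset.sum_congr rfl fun π _ => ?_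
  have h1 : ∏ i, (W (s (i, false)) (s (i, true)) * dd π i -
        m (s (i, false)) (s (i, true)) * m (s (π (i, false))) (s (π (i, true)))) =
      (-1) ^ n * ∏ i, R (s (i, false)) (s (i, true)) (s (π (i, false))) (s (π (i, true))) := by
    have h2 : ((-1 : ℝ)) ^ n = ∏ _i : Fin n, (-1 : ℝ) := by simp
    rw [h2, ← Finset.prod_mul_distrib]
    refine Finset.prod_congr rfl fun i _ => ?_
    rw [hR]
    unfold dd
    simp only [s.injective.eq_iff, eq_comm (a := (i, false)), eq_comm (a := (i, true))]
    ring
  rw [h1]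
  ring

/-- THE SIGN of the integrand. -/
theorem gaussBonnet_sign (n : ℕ) (R : Arr (2 * n)) (W m : Fin (2 * n) → Fin (2 * n) → ℝ)
    (hR : ∀ i j k l, R i j k l = m i j * m k l - W i j *
      ((if i = k then 1 else 0) * (if j = l then 1 else 0) -
        (if i = l then 1 else 0) * (if j = k then 1 else 0)))
    (hw : ∀ u v, 0 ≤ W u v) (hws : ∀ u v, W u v = W v u)
    (hms : ∀ u v, m u v = - m v u) (hz : ∀ u v, W u v = 0 → m u v = 0)
    (hP : ∀ p q r t, m p q * m r t - m p r * m q t + m p t * m q r = 0)
    (hrow : ∀ u, ∑ v, m u v ^ 2 / W u v ≤ 1) :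
    0 ≤ (-1) ^ n * gaussBonnet n R := by
  rw [gaussBonnet_sum n R W m hR hms hP]
  refine mul_nonneg (le_trans zero_le_one cc_pos) ?_
  refine le_of_le_of_eq (matching_ineq (ι := Fin n) W m hw hws hms hz hP hrow)
    (Finset.sum_congr rfl fun s _ => ?_)
  rw [mul_sub, mul_one, Finset.mul_sum]
  congr 1
  refine Finset.sum_congr rfl fun i _ => ?_
  rw [← Finset.mul_prod_erase _ _ (mem_univ i)]
  by_cases h : W (s (i, false)) (s (i, true)) = 0
  · rw [h, hz _ _ h]
    simp
  · field_simp

end Pool.Agent.Lib.H14D
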