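import Pool.Agent.Lib.H14D.GB

/-!
# The strict form (MP_5a30bb, helper39's theorem)
-/

set_option autoImplicit false
set_option linter.unusedSectionVars false

namespace Pool.Agent.Lib.H14D

open Finset Equiv Pool.Agent.H69Hopf

variable {ι V : Type} [Fintype ι] [DecidableEq ι] [Fintype V] [DecidableEq V]

/-- the inequality with a bound `ρ` for the row sums. -/
theorem matching_rho (w m : V → V → ℝ) (hw : ∀ u v, 0 ≤ w u v) (hws : ∀ u v, w u v = w v u)
    (hms : ∀ u v, m u v = - m v u) (hz : ∀ u v, w u v = 0 → m u v = 0)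
    (hP : ∀ p q r t, m p q * m r t - m p r * m q t + m p t * m q r = 0) (ρ : ℝ) (hρ : 0 < ρ)
    (hrow : ∀ u, ∑ v, m u v ^ 2 / w u v ≤ ρ) :
    0 ≤ ∑ s : ι × Bool ≃ V, (∏ i, w (s (i, false)) (s (i, true))) *
      (ρ - ∑ i, m (s (i, false)) (s (i, true)) ^ 2 / w (s (i, false)) (s (i, true))) := by
  have h1 : ∀ u v, (m u v / Real.sqrt ρ) ^ 2 / w u v = m u v ^ 2 / w u v / ρ := by
    intro u v
    rw [div_pow, Real.sq_sqrt hρ.le]
    ring
  have h2 := matching_ineq (ι := ι) w (fun u v => m u v / Real.sqrt ρ) hw hws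
    (fun u v => by
      show m u v / Real.sqrt ρ = - (m v u / Real.sqrt ρ)
      rw [hms u v]
      ring)
    (fun u v h => by
      show m u v / Real.sqrt ρ = 0
      rw [hz u v h, zero_div])
    (fun p q r t => by
      show m p q / Real.sqrt ρ * (m r t / Real.sqrt ρ) - m p r / Real.sqrt ρ * (m q t / Real.sqrt ρ) +
        m p t / Real.sqrt ρ * (m q r / Real.sqrt ρ) = 0
      have : (m p q * m r t - m p r * m q t + m p t * m q r) / (Real.sqrt ρ * Real.sqrt ρ) = 0 := by
        rw [hP, zero_div]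
      rw [← this]
      field_simp)
    (fun u => by
      show ∑ v, (m u v / Real.sqrt ρ) ^ 2 / w u v ≤ 1
      rw [Finset.sum_congr rfl fun v _ => h1 u v, ← Finset.sum_div, div_le_one hρ]
      exact hrow u)
  have h3 := mul_nonneg hρ.le h2
  rw [Finset.mul_sum] at h3
  refine le_of_le_of_eq h3 (Finset.sum_congr rfl fun s _ => ?_)
  simp only [h1]
  rw [← Finset.sum_div]
  field_simp

/-- THE STRICT SIGN of the integrand. -/
theorem gaussBonnet_strict (n : ℕ) (R : Arr (2 * n)) (W m : Fin (2 * n) → Fin (2 * n) → ℝ)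
    (hR : ∀ i j k l, R i j k l = m i j * m k l - W i j *
      ((if i = k then 1 else 0) * (if j = l then 1 else 0) -
        (if i = l then 1 else 0) * (if j = k then 1 else 0)))
    (hw : ∀ u v, 0 ≤ W u v) (hws : ∀ u v, W u v = W v u)
    (hms : ∀ u v, m u v = - m v u) (hw0 : ∀ u v, u ≠ v → 0 < W u v)
    (hP : ∀ p q r t, m p q * m r t - m p r * m q t + m p t * m q r = 0) (ρ : ℝ) (hρ : ρ < 1)
    (hrow : ∀ u, ∑ v, m u v ^ 2 / W u v ≤ ρ) :
    0 < (-1) ^ n * gaussBonnet n R := by
  have hz : ∀ u v, W u v = 0 → m u v = 0 := by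
    intro u v h
    by_cases huv : u = v
    · subst huv
      linarith [hms u u]
    · exact absurd h (hw0 u v huv).ne'
  set ρ' : ℝ := max ρ (1 / 2) with hρ'
  have h0 : 0 < ρ' := lt_of_lt_of_le (by norm_num) (le_max_right _ _)
  have h1 : ρ' < 1 := max_lt hρ (by norm_num)
  have h2 := matching_rho (ι := Fin n) W m hw hws hms hz hP ρ' h0
    (fun u => (hrow u).trans (le_max_left _ _))
  rw [gaussBonnet_sum n R W m hR hms hP]
  refine mul_pos (lt_of_lt_of_le zero_lt_one cc_pos) ?_
  have h3 : 0 < ∑ s : Fin n × Bool ≃ Fin (2 * n), ∏ i, W (s (i, false)) (s (i, true)) := by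
    refine Finset.sum_pos (fun s _ => Finset.prod_pos fun i _ => hw0 _ _ fun h => ?_) ⟨pos n, mem_univ _⟩
    have := s.injective h
    simp at this
  have h4 : ∑ s : Fin n × Bool ≃ Fin (2 * n), (∏ i, W (s (i, false)) (s (i, true)) -
        ∑ i, m (s (i, false)) (s (i, true)) ^ 2 *
          ∏ j ∈ univ.erase i, W (s (j, false)) (s (j, true))) =
      ∑ s : Fin n × Bool ≃ Fin (2 * n), (∏ i, W (s (i, false)) (s (i, true))) *
        (ρ' - ∑ i, m (s (i, false)) (s (i, true)) ^ 2 / W (s (i, false)) (s (i, true))) +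
      (1 - ρ') * ∑ s : Fin n × Bool ≃ Fin (2 * n), ∏ i, W (s (i, false)) (s (i, true)) := by
    rw [Finset.mul_sum, ← Finset.sum_add_distrib]
    refine Finset.sum_congr rfl fun s _ => ?_
    have h5 : ∑ i, m (s (i, false)) (s (i, true)) ^ 2 *
          ∏ j ∈ univ.erase i, W (s (j, false)) (s (j, true)) =
        (∏ i, W (s (i, false)) (s (i, true))) *
          ∑ i, m (s (i, false)) (s (i, true)) ^ 2 / W (s (i, false)) (s (i, true)) := by
      rw [Finset.mul_sum]
      refine Finset.sum_congr rfl fun i _ => ?_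
      rw [← Finset.mul_prod_erase _ _ (mem_univ i)]
      by_cases h : W (s (i, false)) (s (i, true)) = 0
      · rw [h, hz _ _ h]
        simp
      · field_simp
    rw [h5]
    ring
  rw [h4]
  have h5 : 0 < 1 - ρ' := by linarith
  positivity

end Pool.Agent.Lib.H14D
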