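import Mathlib

/-!
# Isolation at tuple level (MP_5a30bb, plan of helper7 and helper39)
-/

set_option autoImplicit false

namespace Pool.Agent.Lib.H14D.IS

open Finset

/-- the multiplicity of `k` in `τ`. -/
def mult {N : ℕ} {ι : Type*} [DecidableEq ι] (k : ι) (τ : Fin N → ι) : ℕ :=
  (univ.filter fun j => τ j = k).card

/-- insert `k` in the slot `i` of `τ`. -/
def ins {N : ℕ} {ι : Type*} (i : Fin (N + 1)) (k : ι) (τ : Fin N → ι) : Fin (N + 1) → ι :=
  i.insertNth (α := fun _ => ι) k τ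

/-- omit the slot `i`. -/
def om {N : ℕ} {ι : Type*} (i : Fin (N + 1)) (κ : Fin (N + 1) → ι) : Fin N → ι :=
  fun j => κ (i.succAbove j)

theorem om_ins {N : ℕ} {ι : Type*} (i : Fin (N + 1)) (k : ι) (τ : Fin N → ι) :
    om i (ins i k τ) = τ := by
  funext j
  simp [om, ins]

theorem ins_same {N : ℕ} {ι : Type*} (i : Fin (N + 1)) (k : ι) (τ : Fin N → ι) :
    ins i k τ i = k := by
  simp [ins]

theorem mult_ins {N : ℕ} {ι : Type*} [DecidableEq ι] (i : Fin (N + 1)) (k : ι) (τ : Fin N → ι) :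
    mult k (ins i k τ) = mult k τ + 1 := by
  unfold mult
  rw [Finset.card_filter, Finset.card_filter, Fin.sum_univ_succAbove _ i]
  simp [ins, add_comm]

theorem sum_ins {N : ℕ} {ι : Type*} [Fintype ι] (i : Fin (N + 1)) (f : (Fin (N + 1) → ι) → ℝ) :
    ∑ κ, f κ = ∑ τ : Fin N → ι, ∑ k, f (ins i k τ) := by
  rw [← (Fin.insertNthEquiv (fun _ => ι) i).sum_comp f, Fintype.sum_prod_type, Finset.sum_comm]
  rfl

/-- ISOLATION. -/
theorem iso_sum {N : ℕ} {ι : Type*} [Fintype ι] [DecidableEq ι]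
    (F : (Fin (N + 1) → ι) → ℝ) (G : (Fin N → ι) → ℝ) (hF : ∀ κ, 0 ≤ F κ)
    (hins : ∀ i k τ, F (ins i k τ) = F (ins 0 k τ))
    (hiso : ∀ κ i j, G (om i κ) ≠ 0 → G (om j κ) ≠ 0 → κ i = κ j)
    (ρ : ℝ) (hk : ∀ τ, G τ ≠ 0 → ρ * G τ ≤ ∑ k, F (ins 0 k τ) / (mult k τ + 1)) :
    (N + 1 : ℝ) * (ρ * ∑ τ, G τ) ≤ ∑ κ, F κ := by
  classical
  let c : Fin (N + 1) → (Fin (N + 1) → ι) → ℝ := fun i κ =>
    if G (om i κ) ≠ 0 then 1 / (mult (κ i) κ : ℝ) else 0
  have hc : ∀ κ, ∑ i, c i κ ≤ 1 := by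
    intro κ
    by_cases h : ∃ i, G (om i κ) ≠ 0
    · obtain ⟨i0, hi0⟩ := h
      have h1 : ∀ i, c i κ ≤ if κ i = κ i0 then 1 / (mult (κ i0) κ : ℝ) else 0 := by
        intro i
        by_cases hi : G (om i κ) ≠ 0
        · have h2 := hiso κ i i0 hi hi0
          simp only [c, if_pos hi, if_pos h2]
          rw [h2]
        · simp only [c, if_neg hi]
          split_ifs
          · positivity
          · exact le_refl 0
      refine le_trans (Finset.sum_le_sum fun i _ => h1 i) ?_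
      rw [← Finset.sum_filter, Finset.sum_const, nsmul_eq_mul]
      have h3 : (mult (κ i0) κ : ℝ) ≠ 0 := by
        have h4 : i0 ∈ univ.filter fun j => κ j = κ i0 := by simp
        have h5 : 0 < mult (κ i0) κ := Finset.card_pos.2 ⟨i0, h4⟩
        exact_mod_cast h5.ne'
      show ((mult (κ i0) κ : ℕ) : ℝ) * (1 / (mult (κ i0) κ : ℝ)) ≤ 1
      rw [mul_one_div_cancel h3]
    · push Not at h
      have h1 : ∀ i, c i κ = 0 := fun i => by
        simp only [c, h i, ne_eq, not_true_eq_false, if_false]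
      rw [Finset.sum_eq_zero fun i _ => h1 i]
      norm_num
  have h1 : ∑ κ, F κ * ∑ i, c i κ ≤ ∑ κ, F κ := by
    refine Finset.sum_le_sum fun κ _ => ?_
    have := mul_le_mul_of_nonneg_left (hc κ) (hF κ)
    linarith
  refine le_trans ?_ h1
  have h2 : ∑ κ, F κ * ∑ i, c i κ = ∑ i : Fin (N + 1), ∑ κ, F κ * c i κ := by
    simp only [Finset.mul_sum]
    rw [Finset.sum_comm]
  rw [h2]
  have h3 : ∀ i : Fin (N + 1), ρ * ∑ τ, G τ ≤ ∑ κ, F κ * c i κ := by
    intro i
    rw [sum_ins i, Finset.mul_sum]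
    refine Finset.sum_le_sum fun τ _ => ?_
    by_cases hτ : G τ = 0
    · rw [hτ, mul_zero]
      refine Finset.sum_nonneg fun k _ => mul_nonneg (hF _) ?_
      simp only [c]
      split_ifs
      · positivity
      · exact le_refl 0
    · refine le_trans (hk τ hτ) (le_of_eq ?_)
      refine Finset.sum_congr rfl fun k _ => ?_
      have h4 : c i (ins i k τ) = 1 / ((mult k τ : ℝ) + 1) := by
        simp only [c, om_ins, ins_same, mult_ins]
        rw [if_pos hτ]
        push_cast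
        rfl
      rw [h4, hins i k τ]
      ring
  calc (N + 1 : ℝ) * (ρ * ∑ τ, G τ) = ∑ _i : Fin (N + 1), ρ * ∑ τ, G τ := by
        rw [Finset.sum_const, Finset.card_univ, Fintype.card_fin, nsmul_eq_mul]
        push_cast
        ring
    _ ≤ _ := Finset.sum_le_sum fun i _ => h3 i

end Pool.Agent.Lib.H14D.IS
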