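import Pool.Agent.Lib.H14D.FE

/-!
# The wedge product `mp` under a linear change of the frame (MP_5a30bb, chunk M1)
-/

set_option autoImplicit false
set_option linter.unusedSectionVars false

namespace Pool.Agent.Lib.H14D.MP1

open Finset Equiv Pool.Agent.H69Hopf Pool.Agent.Lib.H14D.FE

/-- a product over the positions is the product over the pairs. -/
theorem prod_pos {n : ℕ} (F : Fin (2 * n) → ℝ) :
    ∏ k, F k = ∏ i : Fin n, F (fst i) * F (snd i) := by
  rw [← (pos' n).prod_comp, Fintype.prod_prod_type]
  refine Finset.prod_congr rfl fun i _ => ?_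
  rw [Fintype.prod_bool, pos_true', pos_false', mul_comm]

/-- a function on the positions is a pair of functions on the slots. -/
private noncomputable def split (n : ℕ) (V : Type*) :
    (Fin (2 * n) → V) ≃ (Fin n → V × V) where
  toFun g i := (g (fst i), g (snd i))
  invFun p k := if ((pos' n).symm k).2 then (p ((pos' n).symm k).1).2
    else (p ((pos' n).symm k).1).1
  left_inv g := by
    funext k
    obtain ⟨⟨i, b⟩, rfl⟩ := (pos' n).surjective k
    simp only [Equiv.symm_apply_apply]
    cases b <;> rfl
  right_inv p := by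
    funext i
    have h1 : (pos' n).symm (fst i) = (i, false) := by
      rw [← pos_false', Equiv.symm_apply_apply]
    have h2 : (pos' n).symm (snd i) = (i, true) := by
      rw [← pos_true', Equiv.symm_apply_apply]
    simp [h1, h2]

/-- the expansion of a product of double sums. -/
theorem prod_sum_sum {n : ℕ} {V : Type*} [Fintype V] (F : Fin n → V → V → ℝ) :
    ∏ i, ∑ a, ∑ b, F i a b = ∑ g : Fin (2 * n) → V, ∏ i, F i (g (fst i)) (g (snd i)) := by
  classical
  have h : ∀ i, ∑ a, ∑ b, F i a b = ∑ p : V × V, F i p.1 p.2 := by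
    intro i
    rw [Fintype.sum_prod_type]
  simp only [h]
  rw [Finset.prod_univ_sum, Fintype.piFinset_univ]
  exact (Fintype.sum_equiv (split n V) _ _ fun g => rfl).symm

/-- (M1) the wedge product of the pulled back two-forms. -/
theorem mp_pull {n : ℕ} (f : Fin n → Fin (2 * n) → Fin (2 * n) → ℝ)
    (E : Fin (2 * n) → Fin (2 * n) → ℝ) :
    mp (fun i s t => ∑ a, ∑ b, f i a b * E s a * E t b) = (Matrix.of E).det * mp f := by
  classical
  have h1 : ∀ σ : Perm (Fin (2 * n)),
      ∏ i, ∑ a, ∑ b, f i a b * E (σ (fst i)) a * E (σ (snd i)) b =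
        ∑ g : Fin (2 * n) → Fin (2 * n), (∏ i, f i (g (fst i)) (g (snd i))) *
          ∏ k, E (σ k) (g k) := by
    intro σ
    rw [prod_sum_sum (fun i a b => f i a b * E (σ (fst i)) a * E (σ (snd i)) b)]
    refine Finset.sum_congr rfl fun g _ => ?_
    rw [prod_pos (fun k => E (σ k) (g k)), ← Finset.prod_mul_distrib]
    refine Finset.prod_congr rfl fun i _ => ?_
    ring
  have h2 : mp (fun i s t => ∑ a, ∑ b, f i a b * E s a * E t b) =
      ∑ g : Fin (2 * n) → Fin (2 * n), (∏ i, f i (g (fst i)) (g (snd i))) *
        (Matrix.of fun s k => E s (g k)).det := by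
    unfold mp
    simp only [h1, Finset.mul_sum]
    rw [Finset.sum_comm]
    refine Finset.sum_congr rfl fun g _ => ?_
    rw [Matrix.det_apply', Finset.mul_sum]
    refine Finset.sum_congr rfl fun σ _ => ?_
    simp only [Matrix.of_apply]
    ring
  rw [h2]
  have h3 : ∀ g : Fin (2 * n) → Fin (2 * n), ¬ Function.Bijective g →
      (∏ i, f i (g (fst i)) (g (snd i))) * (Matrix.of fun s k => E s (g k)).det = 0 := by
    intro g hg
    have h4 : ¬ Function.Injective g := fun h => hg (Finite.injective_iff_bijective.1 h)
    unfold Function.Injective at h4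
    push Not at h4
    obtain ⟨a, b, hab, hne⟩ := h4
    rw [Matrix.det_zero_of_column_eq hne (fun s => by simp [hab]), mul_zero]
  rw [← Finset.sum_filter_of_ne (p := Function.Bijective) (fun g _ hg => by
    by_contra hc
    exact hg (h3 g hc))]
  unfold mp
  rw [Finset.mul_sum]
  refine Finset.sum_bij (fun p h => Equiv.ofBijective p (mem_filter.1 h).2) (fun _ _ => mem_univ _)
    (fun _ _ _ _ h => by injection h)
    (fun b _ => ⟨b, mem_filter.2 ⟨mem_univ _, b.bijective⟩, Equiv.coe_fn_injective rfl⟩)
    fun g hg => ?_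
  have h5 : (Matrix.of fun s k => E s (g k)) =
      (Matrix.of E).submatrix id (Equiv.ofBijective g (mem_filter.1 hg).2) := by
    ext s k
    rfl
  rw [h5, Matrix.det_permute']
  simp only [Equiv.ofBijective_apply]
  ring

/-- (M1) a common kernel vector kills the wedge product. -/
theorem mp_degenerate {n : ℕ} (f : Fin n → Fin (2 * n) → Fin (2 * n) → ℝ)
    (hf : ∀ i a b, f i a b = - f i b a) (z : Fin (2 * n) → ℝ) (hz : z ≠ 0)
    (h : ∀ i b, ∑ a, f i a b * z a = 0) : mp f = 0 := by
  classical
  obtain ⟨p, hp⟩ : ∃ p, z p ≠ 0 := by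
    by_contra hc
    push Not at hc
    exact hz (funext hc)
  set E : Fin (2 * n) → Fin (2 * n) → ℝ := Function.update (fun s a => if s = a then 1 else 0) p z
    with hE
  have hdet : (Matrix.of E).det = z p := by
    have h1 : (Matrix.of E) = Matrix.updateRow (1 : Matrix (Fin (2 * n)) (Fin (2 * n)) ℝ) p z := by
      ext s a
      by_cases hs : s = p
      · subst hs
        simp [hE]
      · simp [hE, Matrix.updateRow_ne hs, Function.update_of_ne hs, Matrix.one_apply]
    rw [h1, ← Matrix.cramer_transpose_apply, Matrix.transpose_one, Matrix.cramer_one]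
    rfl
  have hpull := mp_pull f E
  have hzero : mp (fun i s t => ∑ a, ∑ b, f i a b * E s a * E t b) = 0 := by
    unfold mp
    refine Finset.sum_eq_zero fun σ _ => ?_
    have hk : ∃ i : Fin n, σ (fst i) = p ∨ σ (snd i) = p := by
      obtain ⟨⟨i, b⟩, hb⟩ := (pos' n).surjective (σ.symm p)
      refine ⟨i, ?_⟩
      cases b
      · left
        rw [← pos_false', hb, Equiv.apply_symm_apply]
      · right
        rw [← pos_true', hb, Equiv.apply_symm_apply]
    obtain ⟨i, hi⟩ := hk
    have h0 : ∑ a, ∑ b, f i a b * E (σ (fst i)) a * E (σ (snd i)) b = 0 := by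
      rcases hi with hi | hi
      · rw [hi, Finset.sum_comm]
        refine Finset.sum_eq_zero fun b _ => ?_
        rw [← Finset.sum_mul]
        have : ∑ a, f i a b * E p a = 0 := by
          rw [hE, Function.update_self]
          exact h i b
        rw [this, zero_mul]
      · rw [hi]
        refine Finset.sum_eq_zero fun a _ => ?_
        have h2 : ∑ b, f i a b * E (σ (fst i)) a * E p b =
            - (E (σ (fst i)) a * ∑ b, f i b a * z b) := by
          rw [Finset.mul_sum, ← Finset.sum_neg_distrib]
          refine Finset.sum_congr rfl fun b _ => ?_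
          rw [hf i a b, hE, Function.update_self]
          ring
        rw [h2, h i a]
        ring
    rw [Finset.prod_eq_zero (mem_univ i) h0, mul_zero]
  rw [hzero, hdet] at hpull
  exact (mul_eq_zero.1 hpull.symm).resolve_left hp

end Pool.Agent.Lib.H14D.MP1
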