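import Pool.Agent.Lib.H14D.FourPoint

/-!
# The sum over perfect matchings (MP_5a30bb, helper39's theorem)
A perfect matching of `V` with an order of its edges and of the ends of every edge is a bijection
`s : ι × Bool ≃ V`; its edges are `s (i, false), s (i, true)`.
-/

set_option autoImplicit false
set_option linter.unusedSectionVars false

namespace Pool.Agent.Lib.H14D

open Finset

variable {ι V : Type} [Fintype ι] [DecidableEq ι] [Fintype V] [DecidableEq V]

/-- value of an edge function at the edge `i` of the matching `s`. -/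
def ed (F : V → V → ℝ) (s : ι × Bool ≃ V) (i : ι) : ℝ := F (s (i, false)) (s (i, true))

/-- the four cross values between the edges `i` and `j`. -/
def cr (F : V → V → ℝ) (s : ι × Bool ≃ V) (i j : ι) : ℝ :=
  (F (s (i, false)) (s (j, false)) + F (s (i, true)) (s (j, true))) +
    (F (s (i, false)) (s (j, true)) + F (s (i, true)) (s (j, false)))

/-- the numerator. -/
noncomputable def nu (F : V → V → ℝ) (s : ι × Bool ≃ V) (i j : ι) : ℝ :=
  (ed F s i + ed F s j) * cr F s i j / 2 - 2 * ed F s i * ed F s j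

theorem sum_V (F : V → ℝ) (s : ι × Bool ≃ V) :
    ∑ v, F v = ∑ i, (F (s (i, false)) + F (s (i, true))) := by
  rw [← s.sum_comp, Fintype.sum_prod_type]
  refine Finset.sum_congr rfl fun i _ => ?_
  rw [Fintype.sum_bool, add_comm]

theorem row_bound (F : V → V → ℝ) (hF : ∀ u v, F u v = F v u) (hF0 : ∀ u, F u u = 0)
    (hrow : ∀ u, ∑ v, F u v ≤ 1) (s : ι × Bool ≃ V) (i : ι) :
    ∑ j ∈ univ.erase i, cr F s i j ≤ 2 * (1 - ed F s i) := by
  have h1 := sum_V (F (s (i, false))) s
  have h2 := sum_V (F (s (i, true))) s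
  have h3 := hrow (s (i, false))
  have h4 := hrow (s (i, true))
  rw [h1, ← Finset.add_sum_erase _ _ (mem_univ i)] at h3
  rw [h2, ← Finset.add_sum_erase _ _ (mem_univ i)] at h4
  rw [hF0] at h3 h4
  have h5 : ∑ j ∈ univ.erase i, cr F s i j =
      ∑ j ∈ univ.erase i, (F (s (i, false)) (s (j, false)) + F (s (i, false)) (s (j, true))) +
      ∑ j ∈ univ.erase i, (F (s (i, true)) (s (j, false)) + F (s (i, true)) (s (j, true))) := by
    rw [← Finset.sum_add_distrib]
    refine Finset.sum_congr rfl fun j _ => ?_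
    rw [cr]
    ring
  rw [h5]
  have h6 : F (s (i, true)) (s (i, false)) = ed F s i := by rw [ed, hF]
  have h7 : F (s (i, false)) (s (i, true)) = ed F s i := rfl
  rw [h6] at h4
  rw [h7] at h3
  linarith

theorem cr_symm (F : V → V → ℝ) (hF : ∀ u v, F u v = F v u) (s : ι × Bool ≃ V) (i j : ι) :
    cr F s i j = cr F s j i := by
  rw [cr, cr, hF (s (i, false)) (s (j, false)), hF (s (i, true)) (s (j, true)),
    hF (s (i, false)) (s (j, true)), hF (s (i, true)) (s (j, false))]
  ring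

/-- `Σ_{i ≠ j} ν_ij / 2 ≤ Λ (1 - Λ)`. -/
theorem pointwise (F : V → V → ℝ) (hF : ∀ u v, F u v = F v u) (hF0 : ∀ u, F u u = 0)
    (hFn : ∀ u v, 0 ≤ F u v) (hrow : ∀ u, ∑ v, F u v ≤ 1) (s : ι × Bool ≃ V) :
    ∑ i, ∑ j ∈ univ.erase i, nu F s i j ≤ 2 * ((∑ i, ed F s i) * (1 - ∑ i, ed F s i)) := by
  have h1 : ∑ i, ∑ j ∈ univ.erase i, nu F s i j =
      ∑ i, ∑ j ∈ univ.erase i, ed F s i * cr F s i j / 2 +
      ∑ i, ∑ j ∈ univ.erase i, ed F s j * cr F s i j / 2 -
      ∑ i, ∑ j ∈ univ.erase i, 2 * ed F s i * ed F s j := by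
    rw [← Finset.sum_add_distrib, ← Finset.sum_sub_distrib]
    refine Finset.sum_congr rfl fun i _ => ?_
    rw [← Finset.sum_add_distrib, ← Finset.sum_sub_distrib]
    refine Finset.sum_congr rfl fun j _ => ?_
    rw [nu]
    ring
  have h2 : ∑ i, ∑ j ∈ univ.erase i, ed F s j * cr F s i j / 2 =
      ∑ i, ∑ j ∈ univ.erase i, ed F s i * cr F s i j / 2 := by
    have h3 : ∀ G : ι → ι → ℝ, ∑ i, ∑ j ∈ univ.erase i, G i j =
        ∑ i, ∑ j, if j ≠ i then G i j else 0 := by
      intro G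
      refine Finset.sum_congr rfl fun i _ => ?_
      rw [← Finset.sum_filter]
      refine Finset.sum_congr ?_ fun _ _ => rfl
      ext j
      simp
    rw [h3, h3, Finset.sum_comm]
    refine Finset.sum_congr rfl fun j _ => Finset.sum_congr rfl fun i _ => ?_
    by_cases h : i = j
    · rw [if_neg (fun h' => h' h.symm), if_neg (fun h' => h' h)]
    · rw [if_pos (Ne.symm h), if_pos h, cr_symm F hF s i j]
  have h3 : ∑ i, ∑ j ∈ univ.erase i, ed F s i * cr F s i j / 2 ≤ ∑ i, (ed F s i - ed F s i ^ 2) := by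
    refine Finset.sum_le_sum fun i _ => ?_
    have h4 : ∑ j ∈ univ.erase i, ed F s i * cr F s i j / 2 =
        ed F s i / 2 * ∑ j ∈ univ.erase i, cr F s i j := by
      rw [Finset.mul_sum]
      exact Finset.sum_congr rfl fun j _ => by ring
    rw [h4]
    have h5 := mul_le_mul_of_nonneg_left (row_bound F hF hF0 hrow s i)
      (by have := hFn (s (i, false)) (s (i, true)); rw [ed]; positivity : (0 : ℝ) ≤ ed F s i / 2)
    nlinarith
  have h4 : ∑ i, ∑ j ∈ univ.erase i, 2 * ed F s i * ed F s j =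
      2 * (∑ i, ed F s i) ^ 2 - 2 * ∑ i, ed F s i ^ 2 := by
    have h5 : ∀ i, ∑ j ∈ univ.erase i, 2 * ed F s i * ed F s j =
        2 * ed F s i * (∑ j, ed F s j) - 2 * ed F s i ^ 2 := by
      intro i
      rw [← Finset.mul_sum, ← Finset.add_sum_erase _ _ (mem_univ i)]
      ring
    simp only [h5]
    rw [Finset.sum_sub_distrib, ← Finset.sum_mul, ← Finset.mul_sum, ← Finset.mul_sum]
    ring
  rw [Finset.sum_sub_distrib] at h3
  rw [h1, h2, h4]
  nlinarith

/-- the three-cycle of positions. -/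
def rho (i j : ι) : Equiv.Perm (ι × Bool) :=
  Equiv.swap (i, true) (j, false) * Equiv.swap (i, true) (j, true)

theorem rho_if {i j : ι} (h : i ≠ j) : rho i j (i, false) = (i, false) := by
  simp [rho, Equiv.swap_apply_def, h, h.symm]

theorem rho_it {i j : ι} (h : i ≠ j) : rho i j (i, true) = (j, true) := by
  simp [rho, Equiv.swap_apply_def, h, h.symm]

theorem rho_jf {i j : ι} (h : i ≠ j) : rho i j (j, false) = (i, true) := by
  simp [rho, Equiv.swap_apply_def, h, h.symm]

theorem rho_jt {i j : ι} : rho i j (j, true) = (j, false) := by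
  simp [rho, Equiv.swap_apply_def]

theorem rho_l {i j l : ι} (hi : l ≠ i) (hj : l ≠ j) (b : Bool) : rho i j (l, b) = (l, b) := by
  simp [rho, Equiv.swap_apply_def, hi, hj]

/-- the summand of the pair `i, j`. -/
noncomputable def sm (w F : V → V → ℝ) (i j : ι) (s : ι × Bool ≃ V) : ℝ :=
  (∏ l, ed w s l) * nu F s i j / ∑ l, ed F s l

theorem split_prod (w : V → V → ℝ) (s : ι × Bool ≃ V) {i j : ι} (h : i ≠ j) :
    ∏ l, ed w s l = ed w s i * ed w s j * ∏ l ∈ (univ.erase i).erase j, ed w s l := by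
  rw [← Finset.mul_prod_erase _ _ (mem_univ i),
    ← Finset.mul_prod_erase _ _ (mem_erase.2 ⟨h.symm, mem_univ j⟩)]
  ring

theorem split_sum (F : V → V → ℝ) (s : ι × Bool ≃ V) {i j : ι} (h : i ≠ j) :
    ∑ l, ed F s l = ∑ l ∈ (univ.erase i).erase j, ed F s l + (ed F s i + ed F s j) := by
  rw [← Finset.add_sum_erase _ _ (mem_univ i),
    ← Finset.add_sum_erase _ _ (mem_erase.2 ⟨h.symm, mem_univ j⟩)]
  ring

theorem sm_pair (w m : V → V → ℝ) (hw : ∀ u v, 0 ≤ w u v) (hws : ∀ u v, w u v = w v u)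
    (hms : ∀ u v, m u v = - m v u) (hz : ∀ u v, w u v = 0 → m u v = 0)
    (hP : ∀ p q r t, m p q * m r t - m p r * m q t + m p t * m q r = 0) {i j : ι} (h : i ≠ j)
    (s : ι × Bool ≃ V) :
    0 ≤ sm w (fun u v => m u v ^ 2 / w u v) i j s +
      sm w (fun u v => m u v ^ 2 / w u v) i j ((rho i j).trans s) +
      sm w (fun u v => m u v ^ 2 / w u v) i j ((rho i j).trans ((rho i j).trans s)) := by
  set F : V → V → ℝ := fun u v => m u v ^ 2 / w u v with hFdef
  have hF : ∀ u v, F u v = F v u := by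
    intro u v
    simp only [hFdef]
    rw [hms u v, hws u v, neg_sq]
  have hFa : ∀ u v, F u v = m u v ^ 2 / w u v := fun _ _ => rfl
  have hFn : ∀ u v, 0 ≤ F u v := fun u v => div_nonneg (sq_nonneg _) (hw u v)
  set s1 := (rho i j).trans s with hs1
  set s2 := (rho i j).trans s1 with hs2
  -- values
  have a1 : s1 (i, false) = s (i, false) := by rw [hs1, Equiv.trans_apply, rho_if h]
  have a2 : s1 (i, true) = s (j, true) := by rw [hs1, Equiv.trans_apply, rho_it h]
  have a3 : s1 (j, false) = s (i, true) := by rw [hs1, Equiv.trans_apply, rho_jf h]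
  have a4 : s1 (j, true) = s (j, false) := by rw [hs1, Equiv.trans_apply, rho_jt]
  have b1 : s2 (i, false) = s (i, false) := by rw [hs2, Equiv.trans_apply, rho_if h, a1]
  have b2 : s2 (i, true) = s (j, false) := by rw [hs2, Equiv.trans_apply, rho_it h, a4]
  have b3 : s2 (j, false) = s (j, true) := by rw [hs2, Equiv.trans_apply, rho_jf h, a2]
  have b4 : s2 (j, true) = s (i, true) := by rw [hs2, Equiv.trans_apply, rho_jt, a3]
  have r1 : ∀ l ∈ (univ.erase i).erase j, ∀ G : V → V → ℝ, ed G s1 l = ed G s l := by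
    intro l hl G
    have hl1 := (mem_erase.1 hl).1
    have hl2 := (mem_erase.1 (mem_erase.1 hl).2).1
    rw [ed, ed, hs1, Equiv.trans_apply, Equiv.trans_apply, rho_l hl2 hl1, rho_l hl2 hl1]
  have r2 : ∀ l ∈ (univ.erase i).erase j, ∀ G : V → V → ℝ, ed G s2 l = ed G s l := by
    intro l hl G
    have hl1 := (mem_erase.1 hl).1
    have hl2 := (mem_erase.1 (mem_erase.1 hl).2).1
    have e1 : s2 (l, false) = s1 (l, false) := by rw [hs2, Equiv.trans_apply, rho_l hl2 hl1]
    have e2 : s2 (l, true) = s1 (l, true) := by rw [hs2, Equiv.trans_apply, rho_l hl2 hl1]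
    rw [ed, e1, e2]
    exact r1 l hl G
  set W : ℝ := ∏ l ∈ (univ.erase i).erase j, ed w s l with hW
  set L : ℝ := ∑ l ∈ (univ.erase i).erase j, ed F s l with hL
  have hW0 : 0 ≤ W := Finset.prod_nonneg fun l _ => hw _ _
  have hL0 : 0 ≤ L := Finset.sum_nonneg fun l _ => hFn _ _
  have hW1 : ∏ l ∈ (univ.erase i).erase j, ed w s1 l = W :=
    Finset.prod_congr rfl fun l hl => r1 l hl w
  have hW2 : ∏ l ∈ (univ.erase i).erase j, ed w s2 l = W :=
    Finset.prod_congr rfl fun l hl => r2 l hl w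
  have hL1 : ∑ l ∈ (univ.erase i).erase j, ed F s1 l = L :=
    Finset.sum_congr rfl fun l hl => r1 l hl F
  have hL2 : ∑ l ∈ (univ.erase i).erase j, ed F s2 l = L :=
    Finset.sum_congr rfl fun l hl => r2 l hl F
  rw [sm, sm, sm, split_prod w s h, split_prod w s1 h, split_prod w s2 h, split_sum F s h,
    split_sum F s1 h, split_sum F s2 h, hW1, hW2, hL1, hL2, ← hW, ← hL]
  simp only [nu, cr, ed, a1, a2, a3, a4, b1, b2, b3, b4]
  generalize s (i, false) = p
  generalize s (i, true) = q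
  generalize s (j, false) = r
  generalize s (j, true) = t
  have key := four_point L (w p q) (w r t) (w p r) (w q t) (w p t) (w q r) (m p q) (m r t) (m p r)
    (m q t) (m p t) (m q r) hL0 (hw _ _) (hw _ _) (hw _ _) (hw _ _) (hw _ _) (hw _ _) (hz _ _)
    (hz _ _) (hz _ _) (hz _ _) (hz _ _) (hz _ _) (hP p q r t)
  simp only [← hFa] at key
  have key2 := mul_nonneg hW0 key
  rw [hF t q, hF t r, hF r q, hws t q]
  refine le_of_le_of_eq key2 ?_
  ring

/-- THE MATCHING INEQUALITY. -/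
theorem matching_ineq (w m : V → V → ℝ) (hw : ∀ u v, 0 ≤ w u v) (hws : ∀ u v, w u v = w v u)
    (hms : ∀ u v, m u v = - m v u) (hz : ∀ u v, w u v = 0 → m u v = 0)
    (hP : ∀ p q r t, m p q * m r t - m p r * m q t + m p t * m q r = 0)
    (hrow : ∀ u, ∑ v, m u v ^ 2 / w u v ≤ 1) :
    0 ≤ ∑ s : ι × Bool ≃ V, (∏ i, w (s (i, false)) (s (i, true))) *
      (1 - ∑ i, m (s (i, false)) (s (i, true)) ^ 2 / w (s (i, false)) (s (i, true))) := by
  set F : V → V → ℝ := fun u v => m u v ^ 2 / w u v with hFdef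
  have hF : ∀ u v, F u v = F v u := by
    intro u v
    simp only [hFdef]
    rw [hms u v, hws u v, neg_sq]
  have hF0 : ∀ u, F u u = 0 := by
    intro u
    have h1 : m u u = 0 := by linarith [hms u u]
    simp only [hFdef]
    rw [h1]
    simp
  have hFn : ∀ u v, 0 ≤ F u v := fun u v => div_nonneg (sq_nonneg _) (hw u v)
  have hpt : ∀ s : ι × Bool ≃ V, ∑ i, ∑ j ∈ univ.erase i, sm w F i j s ≤
      2 * ((∏ i, ed w s i) * (1 - ∑ i, ed F s i)) := by
    intro s
    have h1 : ∑ i, ∑ j ∈ univ.erase i, sm w F i j s =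
        (∏ i, ed w s i) * ((∑ i, ∑ j ∈ univ.erase i, nu F s i j) / ∑ l, ed F s l) := by
      rw [Finset.sum_div, Finset.mul_sum]
      refine Finset.sum_congr rfl fun i _ => ?_
      rw [Finset.sum_div, Finset.mul_sum]
      refine Finset.sum_congr rfl fun j _ => ?_
      rw [sm]
      ring
    have hW0 : 0 ≤ ∏ i, ed w s i := Finset.prod_nonneg fun l _ => hw _ _
    have hΛ0 : 0 ≤ ∑ l, ed F s l := Finset.sum_nonneg fun l _ => hFn _ _
    have h2 : (∑ i, ∑ j ∈ univ.erase i, nu F s i j) / ∑ l, ed F s l ≤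
        2 * (1 - ∑ i, ed F s i) := by
      rcases hΛ0.eq_or_lt with h3 | h3
      · rw [← h3, div_zero]
        norm_num
      · rw [div_le_iff₀ h3]
        have h4 := pointwise F hF hF0 hFn hrow s
        linarith
    rw [h1]
    calc (∏ i, ed w s i) * ((∑ i, ∑ j ∈ univ.erase i, nu F s i j) / ∑ l, ed F s l)
        ≤ (∏ i, ed w s i) * (2 * (1 - ∑ i, ed F s i)) := mul_le_mul_of_nonneg_left h2 hW0
      _ = 2 * ((∏ i, ed w s i) * (1 - ∑ i, ed F s i)) := by ring
  have hsum : ∀ i : ι, ∀ j ∈ univ.erase i, 0 ≤ ∑ s : ι × Bool ≃ V, sm w F i j s := by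
    intro i j hj
    have hij : i ≠ j := (mem_erase.1 hj).1.symm
    let T : (ι × Bool ≃ V) ≃ (ι × Bool ≃ V) :=
      { toFun := fun s => (rho i j).trans s
        invFun := fun s => (rho i j).symm.trans s
        left_inv := fun s => by
          ext x
          simp
        right_inv := fun s => by
          ext x
          simp }
    have h1 : ∑ s : ι × Bool ≃ V, sm w F i j ((rho i j).trans s) =
        ∑ s : ι × Bool ≃ V, sm w F i j s := T.sum_comp fun s => sm w F i j s
    have h2 : ∑ s : ι × Bool ≃ V, sm w F i j ((rho i j).trans ((rho i j).trans s)) =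
        ∑ s : ι × Bool ≃ V, sm w F i j s :=
      (T.sum_comp fun s => sm w F i j ((rho i j).trans s)).trans h1
    have h3 : 0 ≤ ∑ s : ι × Bool ≃ V, (sm w F i j s + sm w F i j ((rho i j).trans s) +
        sm w F i j ((rho i j).trans ((rho i j).trans s))) :=
      Finset.sum_nonneg fun s _ => sm_pair w m hw hws hms hz hP hij s
    rw [Finset.sum_add_distrib, Finset.sum_add_distrib, h1, h2] at h3
    linarith
  have h1 : 0 ≤ ∑ s : ι × Bool ≃ V, ∑ i, ∑ j ∈ univ.erase i, sm w F i j s := by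
    rw [Finset.sum_comm]
    refine Finset.sum_nonneg fun i _ => ?_
    rw [Finset.sum_comm]
    exact Finset.sum_nonneg fun j hj => hsum i j hj
  have h2 : ∑ s : ι × Bool ≃ V, ∑ i, ∑ j ∈ univ.erase i, sm w F i j s ≤
      ∑ s : ι × Bool ≃ V, 2 * ((∏ i, ed w s i) * (1 - ∑ i, ed F s i)) :=
    Finset.sum_le_sum fun s _ => hpt s
  rw [← Finset.mul_sum] at h2
  have h3 : 0 ≤ ∑ s : ι × Bool ≃ V, (∏ i, ed w s i) * (1 - ∑ i, ed F s i) := by linarith
  exact h3

end Pool.Agent.Lib.H14D
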