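import Pool.Agent.Lib.HopfSix.Max
import Pool.Agent.Lib.HopfSix.Decomp

/-!
# Dimension six, `R = m ⊗ m - P` (MP_5a30bb): the adjugate identity

`K = cr f f` (eight times the Pfaffian adjugate of the skew matrix `f`), `W f g h` the wedge product of three two-forms:
`K g K = (1/3) W(f,f,f) cr f g - (1/2) W(f,f,g) K`.
-/

set_option autoImplicit false
set_option linter.unusedSectionVars false

namespace Pool.Agent.Lib.H14D

open Finset Equiv Matrix HopfSix

abbrev M6 := Matrix (Fin 6) (Fin 6) ℝ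

theorem fK (f : M6) (hf : ∀ i j, f i j = - f j i) (i j : Fin 6) :
    ∑ k, f i k * cr f f k j = if i = j then -(1 / 6) * W f f f else 0 := by
  rw [cr_self f hf]
  have h1 : ∑ k, f i k * ((8 : ℝ) • shp f) k j = 8 * ∑ k, f i k * shp f k j := by
    rw [Finset.mul_sum]
    refine Finset.sum_congr rfl fun k _ => ?_
    simp only [Matrix.smul_apply, smul_eq_mul]
    ring
  rw [h1, mul_shp f hf, W_self f hf]
  split_ifs <;> ring

theorem cr_line (f g : M6) (t : ℝ) :
    cr (f + t • g) (f + t • g) = cr f f + ((2 * t) • cr f g + (t ^ 2) • cr g g) := by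
  rw [cr_add_left, cr_smul_left, cr_comm f, cr_comm g, cr_add_left, cr_smul_left,
    cr_add_left, cr_smul_left, cr_comm g f]
  funext i j
  simp only [Matrix.add_apply, Matrix.smul_apply, smul_eq_mul]
  ring

theorem W_line (f g : M6) (t : ℝ) :
    W (f + t • g) (f + t • g) (f + t • g) =
      W f f f + 3 * t * W f f g + 3 * t ^ 2 * W f g g + t ^ 3 * W g g g := by
  have h := W_cube f g 1 t
  rw [one_smul] at h
  rw [h]
  ring

theorem fK1 (f g : M6) (hf : ∀ i j, f i j = - f j i) (hg : ∀ i j, g i j = - g j i) (i j : Fin 6) :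
    ∑ k, g i k * cr f f k j + 2 * ∑ k, f i k * cr f g k j =
      if i = j then -(1 / 2) * W f f g else 0 := by
  have h : ∀ t : ℝ, ∑ k, f i k * cr f f k j +
      t * (∑ k, g i k * cr f f k j + 2 * ∑ k, f i k * cr f g k j) +
      t ^ 2 * (2 * ∑ k, g i k * cr f g k j + ∑ k, f i k * cr g g k j) +
      t ^ 3 * ∑ k, g i k * cr g g k j =
      if i = j then -(1 / 6) * (W f f f + 3 * t * W f f g + 3 * t ^ 2 * W f g g + t ^ 3 * W g g g)
        else 0 := by
    intro t
    have h1 := fK (f + t • g) (fun i j => by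
      simp only [Matrix.add_apply, Matrix.smul_apply, smul_eq_mul]
      rw [hf i j, hg i j]
      ring) i j
    rw [W_line, cr_line] at h1
    rw [← h1]
    simp only [Matrix.add_apply, Matrix.smul_apply, smul_eq_mul, Finset.mul_sum,
      ← Finset.sum_add_distrib]
    refine Finset.sum_congr rfl fun k _ => ?_
    ring
  have a1 := h 1
  have a2 := h (-1)
  have a3 := h 2
  have a4 := h (-2)
  split_ifs at a1 a2 a3 a4 ⊢ with hij
  · linear_combination (8 * (a1 - a2) - (a3 - a4)) / 12
  · linear_combination (8 * (a1 - a2) - (a3 - a4)) / 12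

/-- THE ADJUGATE IDENTITY. -/
theorem KgK (f g : M6) (hf : ∀ i j, f i j = - f j i) (hg : ∀ i j, g i j = - g j i) :
    cr f f * g * cr f f = ((1 / 3) * W f f f) • cr f g - ((1 / 2) * W f f g) • cr f f := by
  have h1 : f * cr f f = (-(1 / 6) * W f f f) • (1 : M6) := by
    ext i j
    rw [Matrix.mul_apply, fK f hf, Matrix.smul_apply, Matrix.one_apply]
    split_ifs <;> simp
  have hft : f.transpose = - f := by
    ext i j
    rw [Matrix.transpose_apply, Matrix.neg_apply, hf j i]
  have hKt : (cr f f).transpose = - cr f f := by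
    ext i j
    rw [Matrix.transpose_apply, Matrix.neg_apply, cr_skew f f j i]
  have h2 : cr f f * f = (-(1 / 6) * W f f f) • (1 : M6) := by
    have h3 := congrArg Matrix.transpose h1
    rw [Matrix.transpose_mul, hft, hKt, Matrix.transpose_smul, Matrix.transpose_one,
      Matrix.neg_mul, Matrix.mul_neg, neg_neg] at h3
    exact h3
  have h3 : g * cr f f + (2 : ℝ) • (f * cr f g) = (-(1 / 2) * W f f g) • (1 : M6) := by
    ext i j
    rw [Matrix.add_apply, Matrix.smul_apply, Matrix.mul_apply, Matrix.mul_apply, smul_eq_mul,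
      fK1 f g hf hg, Matrix.smul_apply, Matrix.one_apply]
    split_ifs <;> simp
  have h4 := congrArg (fun X => cr f f * X) h3
  simp only [Matrix.mul_add, Matrix.mul_smul, Matrix.mul_one] at h4
  rw [← Matrix.mul_assoc, ← Matrix.mul_assoc, h2, Matrix.smul_mul, Matrix.one_mul] at h4
  rw [eq_sub_iff_add_eq]
  have h5 : cr f f * g * cr f f = (-(1 / 2) * W f f g) • cr f f -
      (2 : ℝ) • (-(1 / 6) * W f f f) • cr f g := by
    rw [eq_sub_iff_add_eq]
    exact h4
  rw [h5]
  ext i j
  simp only [Matrix.add_apply, Matrix.sub_apply, Matrix.smul_apply, smul_eq_mul]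
  ring

/-- the two-form `a ∧ b`. -/
def w2 (a b : Fin 6 → ℝ) : M6 := fun i j => a i * b j - a j * b i

theorem w2_skew (a b : Fin 6 → ℝ) (i j : Fin 6) : w2 a b i j = - w2 a b j i := by
  unfold w2
  ring

/-- value of a matrix on two vectors. -/
def val (g : M6) (u v : Fin 6 → ℝ) : ℝ := ∑ i, ∑ j, g i j * u i * v j

theorem val_eq (g : M6) (u v : Fin 6 → ℝ) : val g u v = u ⬝ᵥ (g *ᵥ v) := by
  unfold val dotProduct Matrix.mulVec dotProduct
  refine Finset.sum_congr rfl fun i _ => ?_
  rw [Finset.mul_sum]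
  refine Finset.sum_congr rfl fun j _ => ?_
  ring

theorem val_w2 (K : M6) (hK : ∀ i j, K i j = - K j i) (a b : Fin 6 → ℝ) :
    b ⬝ᵥ (K *ᵥ a) = -(1 / 2) * ip (w2 a b) K := by
  have h1 : b ⬝ᵥ (K *ᵥ a) = ∑ i, ∑ j, K i j * b i * a j := (val_eq K b a).symm
  have h2 : ip (w2 a b) K = ∑ i, ∑ j, K i j * a i * b j - ∑ i, ∑ j, K i j * b i * a j := by
    unfold ip w2
    rw [← Finset.sum_sub_distrib]
    refine Finset.sum_congr rfl fun i _ => ?_
    rw [← Finset.sum_sub_distrib]
    refine Finset.sum_congr rfl fun j _ => ?_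
    ring
  have h3 : ∑ i, ∑ j, K i j * a i * b j = - ∑ i, ∑ j, K i j * b i * a j := by
    rw [Finset.sum_comm, ← Finset.sum_neg_distrib]
    refine Finset.sum_congr rfl fun i _ => ?_
    rw [← Finset.sum_neg_distrib]
    refine Finset.sum_congr rfl fun j _ => ?_
    rw [hK j i]
    ring
  rw [h1, h2, h3]
  ring

/-- THE VALUE of `g` on the vectors `K b`, `K a`. -/
theorem val_UV (f g : M6) (hf : ∀ i j, f i j = - f j i) (hg : ∀ i j, g i j = - g j i)
    (a b : Fin 6 → ℝ) :
    val g (cr f f *ᵥ b) (cr f f *ᵥ a) =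
      (1 / 6) * W f f f * W f g (w2 a b) - (1 / 4) * W f f g * W f f (w2 a b) := by
  have hKt : (cr f f).transpose = - cr f f := by
    ext i j
    rw [Matrix.transpose_apply, Matrix.neg_apply, cr_skew f f j i]
  have h1 : val g (cr f f *ᵥ b) (cr f f *ᵥ a) = - (b ⬝ᵥ ((cr f f * g * cr f f) *ᵥ a)) := by
    rw [val_eq, Matrix.mulVec_mulVec, ← Matrix.vecMul_transpose, ← Matrix.dotProduct_mulVec, hKt,
      Matrix.mulVec_mulVec, Matrix.neg_mul, Matrix.neg_mulVec, dotProduct_neg, Matrix.mul_assoc]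
  rw [h1, KgK f g hf hg, Matrix.sub_mulVec, Matrix.smul_mulVec, Matrix.smul_mulVec,
    dotProduct_sub, dotProduct_smul, dotProduct_smul, val_w2 _ (cr_skew f g),
    val_w2 _ (cr_skew f f), smul_eq_mul, smul_eq_mul, ← W_eq_ip, ← W_eq_ip]
  ring

end Pool.Agent.Lib.H14D
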