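import Pool.Agent.Lib.H14D.N3A

/-!
# Dimension six, `R = m ⊗ m - P` (MP_5a30bb): the inequality

`m = a ∧ b`, `P = ∑ x, w x ⊗ w x`, nonpositive sectional curvature: `3 ∑ (m w_x w_y)² ≤ ∑ (w_x w_y w_z)²`.
-/

set_option autoImplicit false
set_option linter.unusedSectionVars false

namespace Pool.Agent.Lib.H14D

open Finset Equiv Matrix HopfSix

theorem W_simple (h : M6) (a b : Fin 6 → ℝ) : W h (w2 a b) (w2 a b) = 0 := by
  rw [W_eq_shp h _ (w2_skew a b)]
  have h1 : ∀ p q r s, pf4 (w2 a b) p q r s = 0 := by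
    intro p q r s
    unfold pf4 w2
    ring
  have h2 : ∀ i j, shp (w2 a b) i j = 0 := by
    intro i j
    fin_cases i <;> fin_cases j <;> simp [shp, h1]
  simp [h2]

variable {ι : Type} [Fintype ι] [DecidableEq ι]

theorem plane_m (f : M6) (hf : ∀ i j, f i j = - f j i) (a b : Fin 6 → ℝ) :
    val (w2 a b) (cr f f *ᵥ b) (cr f f *ᵥ a) = -(1 / 4) * W f f (w2 a b) ^ 2 := by
  rw [val_UV f (w2 a b) hf (w2_skew a b), W_simple]
  ring

theorem plane_sum (w : ι → M6) (hw : ∀ x i j, w x i j = - w x j i) (a b : Fin 6 → ℝ)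
    (hd : ∀ x y, x ≠ y → W (w x) (w y) (w2 a b) = 0) (y : ι) :
    ∑ x, val (w x) (cr (w y) (w y) *ᵥ b) (cr (w y) (w y) *ᵥ a) ^ 2 =
      1 / 16 * W (w y) (w y) (w2 a b) ^ 2 * (∑ x ∈ univ.erase y, W (w y) (w y) (w x) ^ 2 +
        (1 / 9) * W (w y) (w y) (w y) ^ 2) := by
  set l : ℝ := W (w y) (w y) (w2 a b) with hl
  have h2 : ∀ x, val (w x) (cr (w y) (w y) *ᵥ b) (cr (w y) (w y) *ᵥ a) ^ 2 =
      if x = y then l ^ 2 * ((1 / 144) * W (w y) (w y) (w y) ^ 2)
        else l ^ 2 * ((1 / 16) * W (w y) (w y) (w x) ^ 2) := by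
    intro x
    rw [val_UV (w y) (w x) (hw y) (hw x), ← hl]
    split_ifs with hxy
    · subst hxy
      rw [← hl]
      ring
    · rw [hd y x (Ne.symm hxy)]
      ring
  simp only [h2]
  rw [← Finset.add_sum_erase _ _ (mem_univ y), if_pos rfl,
    Finset.sum_congr rfl fun x hx => by rw [if_neg (ne_of_mem_erase hx)], ← Finset.mul_sum,
    ← mul_add, ← Finset.mul_sum]
  ring

/-- the plane of the index `y`. -/
theorem plane_ineq (w : ι → M6) (hw : ∀ x i j, w x i j = - w x j i) (a b : Fin 6 → ℝ)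
    (hK : ∀ u v, val (w2 a b) u v ^ 2 ≤ ∑ x, val (w x) u v ^ 2)
    (hd : ∀ x y, x ≠ y → W (w x) (w y) (w2 a b) = 0) (y : ι) :
    W (w y) (w y) (w2 a b) ^ 2 ≤
      ∑ x ∈ univ.erase y, W (w y) (w y) (w x) ^ 2 + (1 / 9) * W (w y) (w y) (w y) ^ 2 := by
  have h1 := hK (cr (w y) (w y) *ᵥ b) (cr (w y) (w y) *ᵥ a)
  rw [plane_m (w y) (hw y), plane_sum w hw a b hd] at h1
  by_cases h0 : W (w y) (w y) (w2 a b) = 0
  · rw [h0]
    have : 0 ≤ ∑ x ∈ univ.erase y, W (w y) (w y) (w x) ^ 2 := Finset.sum_nonneg fun _ _ => sq_nonneg _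
    nlinarith [sq_nonneg (W (w y) (w y) (w y))]
  have h3 : 0 < W (w y) (w y) (w2 a b) ^ 2 := by positivity
  refine le_of_mul_le_mul_left ?_ h3
  linarith

/-- the plane of the index `y`, strict form. -/
theorem plane_strict (w : ι → M6) (hw : ∀ x i j, w x i j = - w x j i) (a b : Fin 6 → ℝ)
    (hK : ∀ u v, val (w2 a b) u v ≠ 0 → val (w2 a b) u v ^ 2 < ∑ x, val (w x) u v ^ 2)
    (hd : ∀ x y, x ≠ y → W (w x) (w y) (w2 a b) = 0) (y : ι) (h0 : W (w y) (w y) (w2 a b) ≠ 0) :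
    W (w y) (w y) (w2 a b) ^ 2 <
      ∑ x ∈ univ.erase y, W (w y) (w y) (w x) ^ 2 + (1 / 9) * W (w y) (w y) (w y) ^ 2 := by
  have h3 : 0 < W (w y) (w y) (w2 a b) ^ 2 := by positivity
  have h1 := hK (cr (w y) (w y) *ᵥ b) (cr (w y) (w y) *ᵥ a) (by
    rw [plane_m (w y) (hw y)]
    intro h
    linarith)
  rw [plane_m (w y) (hw y), plane_sum w hw a b hd] at h1
  refine lt_of_mul_lt_mul_left ?_ h3.le
  linarith

/-- the triples with two equal indices. -/
theorem triple_ineq (w : ι → M6) :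
    3 * ∑ y, ∑ x, W (w y) (w y) (w x) ^ 2 - 2 * ∑ y, W (w y) (w y) (w y) ^ 2 ≤
      ∑ x, ∑ y, ∑ z, W (w x) (w y) (w z) ^ 2 := by
  set S2 : ℝ := ∑ y, ∑ x, W (w y) (w y) (w x) ^ 2 with hS2
  set S3 : ℝ := ∑ y, W (w y) (w y) (w y) ^ 2 with hS3
  have e1 : ∑ x, ∑ y, ∑ z, (if x = y then W (w x) (w y) (w z) ^ 2 else 0) = S2 := by
    rw [hS2]
    refine Finset.sum_congr rfl fun x _ => ?_
    rw [Finset.sum_eq_single x]
    · simp
    · intro y _ hy
      simp [Ne.symm hy]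
    · intro h
      exact absurd (mem_univ x) h
  have e2 : ∑ x, ∑ y, ∑ z, (if x = z then W (w x) (w y) (w z) ^ 2 else 0) = S2 := by
    rw [hS2]
    refine Finset.sum_congr rfl fun x _ => Finset.sum_congr rfl fun y _ => ?_
    rw [Finset.sum_eq_single x]
    · rw [if_pos rfl, W_comm23]
    · intro z _ hz
      simp [Ne.symm hz]
    · intro h
      exact absurd (mem_univ x) h
  have e3 : ∑ x, ∑ y, ∑ z, (if y = z then W (w x) (w y) (w z) ^ 2 else 0) = S2 := by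
    rw [hS2, Finset.sum_comm]
    refine Finset.sum_congr rfl fun y _ => Finset.sum_congr rfl fun x _ => ?_
    rw [Finset.sum_eq_single y]
    · rw [if_pos rfl, W_comm13]
    · intro z _ hz
      simp [Ne.symm hz]
    · intro h
      exact absurd (mem_univ y) h
  have e4 : ∑ x, ∑ y, ∑ z, (if x = y ∧ y = z then W (w x) (w y) (w z) ^ 2 else 0) = S3 := by
    rw [hS3]
    refine Finset.sum_congr rfl fun x _ => ?_
    rw [Finset.sum_eq_single x]
    · rw [Finset.sum_eq_single x]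
      · simp
      · intro z _ hz
        simp [Ne.symm hz]
      · intro h
        exact absurd (mem_univ x) h
    · intro y _ hy
      refine Finset.sum_eq_zero fun z _ => ?_
      simp [Ne.symm hy]
    · intro h
      exact absurd (mem_univ x) h
  have e5 : 3 * S2 - 2 * S3 = ∑ x, ∑ y, ∑ z, ((if x = y then W (w x) (w y) (w z) ^ 2 else 0) +
      (if x = z then W (w x) (w y) (w z) ^ 2 else 0) +
      (if y = z then W (w x) (w y) (w z) ^ 2 else 0) -
      2 * (if x = y ∧ y = z then W (w x) (w y) (w z) ^ 2 else 0)) := by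
    simp only [Finset.sum_sub_distrib, Finset.sum_add_distrib, ← Finset.mul_sum]
    rw [e1, e2, e3, e4]
    ring
  rw [e5]
  refine Finset.sum_le_sum fun x _ => Finset.sum_le_sum fun y _ => Finset.sum_le_sum fun z _ => ?_
  have hp : 0 ≤ W (w x) (w y) (w z) ^ 2 := sq_nonneg _
  by_cases hxy : x = y
  · subst hxy
    by_cases hxz : x = z
    · subst hxz
      simp
      linarith
    · simp [hxz]
  · by_cases hxz : x = z
    · subst hxz
      simp [hxy, Ne.symm hxy]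
    · by_cases hyz : y = z
      · subst hyz
        simp [hxy]
      · simp [hxy, hxz, hyz]
        positivity

/-- the diagonal case. -/
theorem diag_ineq (w : ι → M6) (hw : ∀ x i j, w x i j = - w x j i) (a b : Fin 6 → ℝ)
    (hK : ∀ u v, val (w2 a b) u v ^ 2 ≤ ∑ x, val (w x) u v ^ 2)
    (hd : ∀ x y, x ≠ y → W (w x) (w y) (w2 a b) = 0) :
    3 * ∑ x, ∑ y, W (w x) (w y) (w2 a b) ^ 2 ≤ ∑ x, ∑ y, ∑ z, W (w x) (w y) (w z) ^ 2 := by
  have h1 : ∑ x, ∑ y, W (w x) (w y) (w2 a b) ^ 2 = ∑ y, W (w y) (w y) (w2 a b) ^ 2 := by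
    refine Finset.sum_congr rfl fun x _ => ?_
    rw [Finset.sum_eq_single x]
    · intro y _ hy
      rw [hd x y (Ne.symm hy)]
      ring
    · intro h
      exact absurd (mem_univ x) h
  have h2 : ∑ y, W (w y) (w y) (w2 a b) ^ 2 ≤ ∑ y, (∑ x, W (w y) (w y) (w x) ^ 2 -
      (8 / 9) * W (w y) (w y) (w y) ^ 2) := by
    refine Finset.sum_le_sum fun y _ => ?_
    have h3 := plane_ineq w hw a b hK hd y
    rw [← Finset.add_sum_erase univ (fun x => W (w y) (w y) (w x) ^ 2) (mem_univ y)]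
    linarith
  set S2 : ℝ := ∑ y, ∑ x, W (w y) (w y) (w x) ^ 2 with hS2
  set S3 : ℝ := ∑ y, W (w y) (w y) (w y) ^ 2 with hS3
  have h3 : 3 * S2 - 2 * S3 ≤ ∑ x, ∑ y, ∑ z, W (w x) (w y) (w z) ^ 2 := triple_ineq w
  rw [Finset.sum_sub_distrib, ← Finset.mul_sum] at h2
  have h4 : 0 ≤ S3 := Finset.sum_nonneg fun _ _ => sq_nonneg _
  rw [h1]
  linarith

end Pool.Agent.Lib.H14D
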