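import Pool.Agent.Lib.H14D.N3B
import Pool.Agent.Lib.H69.Hopf.Defs

/-!
# Dimension six, `R = m ⊗ m - P` (MP_5a30bb): the sign of the integrand
-/

set_option autoImplicit false
set_option linter.unusedSectionVars false

namespace Pool.Agent.Lib.H14D

open Finset Equiv Matrix HopfSix

variable {ι : Type} [Fintype ι] [DecidableEq ι]

/-- orthogonal diagonalization. -/
theorem spec (A : Matrix ι ι ℝ) (hA : A.transpose = A) :
    ∃ (U : Matrix ι ι ℝ) (d : ι → ℝ), U.transpose * U = 1 ∧ U.transpose * A * U = Matrix.diagonal d := by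
  have hH : A.IsHermitian := by
    rw [Matrix.IsHermitian, Matrix.conjTranspose_eq_transpose_of_trivial]
    exact hA
  refine ⟨(hH.eigenvectorUnitary : Matrix ι ι ℝ), hH.eigenvalues, ?_, ?_⟩
  · have h1 := (Matrix.mem_unitaryGroup_iff').1 hH.eigenvectorUnitary.2
    rw [Matrix.star_eq_conjTranspose, Matrix.conjTranspose_eq_transpose_of_trivial] at h1
    exact h1
  · have h1 := hH.conjStarAlgAut_star_eigenvectorUnitary
    rw [Unitary.conjStarAlgAut_star_apply] at h1
    rw [Matrix.star_eq_conjTranspose, Matrix.conjTranspose_eq_transpose_of_trivial] at h1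
    exact h1

theorem rot (w : ι → M6) (hw : ∀ x i j, w x i j = - w x j i) (m : M6) :
    ∃ w' : ι → M6, (∀ x i j, w' x i j = - w' x j i) ∧
      (∀ i j k l, ∑ x, w' x i j * w' x k l = ∑ x, w x i j * w x k l) ∧
      ∀ x y, x ≠ y → W (w' x) (w' y) m = 0 := by
  obtain ⟨U, d, h1, h2⟩ := spec (Matrix.of fun x y => W (w x) (w y) m : Matrix ι ι ℝ) (by
    ext x y
    rw [Matrix.transpose_apply, Matrix.of_apply, Matrix.of_apply, W_comm12])
  have h3 : U * U.transpose = 1 := mul_eq_one_comm.1 h1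
  refine ⟨fun y => ∑ x, U x y • w x, fun y i j => ?_, fun i j k l => ?_, fun y z hyz => ?_⟩
  · simp only [Matrix.sum_apply, Matrix.smul_apply, smul_eq_mul, ← Finset.sum_neg_distrib]
    refine Finset.sum_congr rfl fun x _ => ?_
    rw [hw x i j]
    ring
  · simp only [Matrix.sum_apply, Matrix.smul_apply, smul_eq_mul]
    have h4 : ∀ y, (∑ x, U x y * w x i j) * (∑ x, U x y * w x k l) =
        ∑ x, ∑ x', w x i j * w x' k l * (U x y * U x' y) := by
      intro y
      rw [Finset.sum_mul_sum]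
      refine Finset.sum_congr rfl fun x _ => Finset.sum_congr rfl fun x' _ => ?_
      ring
    rw [Finset.sum_congr rfl fun y _ => h4 y, Finset.sum_comm]
    refine Finset.sum_congr rfl fun x _ => ?_
    rw [Finset.sum_comm]
    have h5 : ∀ x', ∑ y, w x i j * w x' k l * (U x y * U x' y) =
        w x i j * w x' k l * if x = x' then 1 else 0 := by
      intro x'
      rw [← Finset.mul_sum]
      congr 1
      have h6 := congrFun (congrFun h3 x) x'
      rw [Matrix.mul_apply, Matrix.one_apply] at h6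
      rw [← h6]
      rfl
    rw [Finset.sum_congr rfl fun x' _ => h5 x']
    simp
  · have h4 := congrFun (congrFun h2 y) z
    rw [Matrix.diagonal_apply_ne _ hyz] at h4
    rw [← h4, Matrix.mul_apply]
    rw [W_sum1]
    simp only [Matrix.mul_apply, Finset.sum_mul]
    rw [Finset.sum_comm]
    refine Finset.sum_congr rfl fun x _ => ?_
    rw [W_smul1, W_sum2, Finset.mul_sum]
    refine Finset.sum_congr rfl fun x' _ => ?_
    rw [W_smul2, Matrix.transpose_apply, Matrix.of_apply]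
    ring

open Pool.Agent.H69Hopf (ev)

theorem ev_sq (w : ι → M6) (m : M6) (R : Fin 6 → Fin 6 → Fin 6 → Fin 6 → ℝ)
    (hR : ∀ i j k l, R i j k l = m i j * m k l - ∑ x, w x i j * w x k l) (u v : Fin 6 → ℝ) :
    ev R u v u v = val m u v ^ 2 - ∑ x, val (w x) u v ^ 2 := by
  have h1 : ∀ g : M6, val g u v ^ 2 = ∑ i, ∑ j, ∑ k, ∑ l, g i j * g k l * u i * v j * u k * v l := by
    intro g
    unfold val
    rw [sq, Finset.sum_mul]
    refine Finset.sum_congr rfl fun i _ => ?_
    rw [Finset.sum_mul]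
    refine Finset.sum_congr rfl fun j _ => ?_
    rw [Finset.mul_sum]
    refine Finset.sum_congr rfl fun k _ => ?_
    rw [Finset.mul_sum]
    refine Finset.sum_congr rfl fun l _ => ?_
    ring
  have h2 : ∑ x, val (w x) u v ^ 2 =
      ∑ i, ∑ j, ∑ k, ∑ l, (∑ x, w x i j * w x k l) * u i * v j * u k * v l := by
    simp only [h1]
    rw [Finset.sum_comm]
    refine Finset.sum_congr rfl fun i _ => ?_
    rw [Finset.sum_comm]
    refine Finset.sum_congr rfl fun j _ => ?_
    rw [Finset.sum_comm]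
    refine Finset.sum_congr rfl fun k _ => ?_
    rw [Finset.sum_comm]
    refine Finset.sum_congr rfl fun l _ => ?_
    simp only [Finset.sum_mul]
  rw [h2, h1 m]
  unfold ev
  simp only [← Finset.sum_sub_distrib]
  refine Finset.sum_congr rfl fun i _ => Finset.sum_congr rfl fun j _ =>
    Finset.sum_congr rfl fun k _ => Finset.sum_congr rfl fun l _ => ?_
  rw [hR]
  ring

/-- the integrand. -/
theorem gb_eq6 (w : ι → M6) (a b : Fin 6 → ℝ) (R : Fin 6 → Fin 6 → Fin 6 → Fin 6 → ℝ)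
    (hR : ∀ i j k l, R i j k l = w2 a b i j * w2 a b k l - ∑ x, w x i j * w x k l) :
    HopfSix.gaussBonnet R = 3 * ∑ x, ∑ y, W (w x) (w y) (w2 a b) ^ 2 -
      ∑ x, ∑ y, ∑ z, W (w x) (w y) (w z) ^ 2 := by
  let s : Option ι → ℝ := fun x => match x with
    | none => 1
    | some _ => -1
  let f : Option ι → M6 := fun x => match x with
    | none => w2 a b
    | some x => w x
  have hR' : ∀ i j k l, R i j k l = ∑ x, s x * f x i j * f x k l := by
    intro i j k l
    rw [hR, Fintype.sum_option]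
    simp only [s, f]
    rw [sub_eq_add_neg, ← Finset.sum_neg_distrib]
    congr 1
    · ring
    · refine Finset.sum_congr rfl fun x _ => ?_
      ring
  have h1 := gb_decomp s f R hR'
  rw [h1]
  simp only [Fintype.sum_option, s, f]
  have e1 : ∀ g : M6, W g (w2 a b) (w2 a b) = 0 := fun g => W_simple g a b
  have e2 : ∀ g : M6, W (w2 a b) g (w2 a b) = 0 := fun g => by rw [W_comm12, e1]
  have e3 : ∀ g : M6, W (w2 a b) (w2 a b) g = 0 := fun g => by rw [W_comm13, e1]
  have e4 : ∀ g g' : M6, W g (w2 a b) g' = W g g' (w2 a b) := fun g g' => W_comm23 _ _ _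
  have e5 : ∀ g g' : M6, W (w2 a b) g g' = W g g' (w2 a b) := fun g g' => by
    rw [W_comm12, W_comm23]
  simp only [e1, e2, e3, e4, e5]
  simp only [Finset.sum_add_distrib]
  have f1 : ∑ x : ι, (1 : ℝ) * -1 * 1 * (0 : ℝ) ^ 2 = 0 := by simp
  have g1 : ∑ x, ∑ y, (1 : ℝ) * -1 * -1 * W (w x) (w y) (w2 a b) ^ 2 =
      ∑ x, ∑ y, W (w x) (w y) (w2 a b) ^ 2 := by
    refine Finset.sum_congr rfl fun x _ => Finset.sum_congr rfl fun y _ => ?_
    ring
  have g2 : ∑ x, ∑ y, (-1 : ℝ) * 1 * -1 * W (w x) (w y) (w2 a b) ^ 2 =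
      ∑ x, ∑ y, W (w x) (w y) (w2 a b) ^ 2 := by
    refine Finset.sum_congr rfl fun x _ => Finset.sum_congr rfl fun y _ => ?_
    ring
  have g3 : ∑ x, ∑ y, (-1 : ℝ) * -1 * 1 * W (w x) (w y) (w2 a b) ^ 2 =
      ∑ x, ∑ y, W (w x) (w y) (w2 a b) ^ 2 := by
    refine Finset.sum_congr rfl fun x _ => Finset.sum_congr rfl fun y _ => ?_
    ring
  have g4 : ∑ x, ∑ y, ∑ z, (-1 : ℝ) * -1 * -1 * W (w x) (w y) (w z) ^ 2 =
      - ∑ x, ∑ y, ∑ z, W (w x) (w y) (w z) ^ 2 := by
    simp only [← Finset.sum_neg_distrib]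
    refine Finset.sum_congr rfl fun x _ => Finset.sum_congr rfl fun y _ =>
      Finset.sum_congr rfl fun z _ => ?_
    ring
  rw [g1, g2, g3, g4]
  simp
  ring

/-- THE SIGN in dimension six. -/
theorem n3_main (w : ι → M6) (hw : ∀ x i j, w x i j = - w x j i) (a b : Fin 6 → ℝ)
    (R : Fin 6 → Fin 6 → Fin 6 → Fin 6 → ℝ)
    (hR : ∀ i j k l, R i j k l = w2 a b i j * w2 a b k l - ∑ x, w x i j * w x k l)
    (hK : ∀ u v, ev R u v u v ≤ 0) : HopfSix.gaussBonnet R ≤ 0 := by
  obtain ⟨w', h1, h2, h3⟩ := rot w hw (w2 a b)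
  have hR' : ∀ i j k l, R i j k l = w2 a b i j * w2 a b k l - ∑ x, w' x i j * w' x k l := by
    intro i j k l
    rw [h2, hR]
  have hK' : ∀ u v, val (w2 a b) u v ^ 2 ≤ ∑ x, val (w' x) u v ^ 2 := by
    intro u v
    have h4 := hK u v
    rw [ev_sq w' (w2 a b) R hR' u v] at h4
    linarith
  rw [gb_eq6 w' a b R hR']
  have h5 := diag_ineq w' h1 a b hK' h3
  linarith

end Pool.Agent.Lib.H14D
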