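import Pool.Agent.Lib.H14D.N3C

/-!
# Dimension six (MP_5a30bb): the strict form, tensors
-/

set_option autoImplicit false
set_option linter.unusedSectionVars false

namespace Pool.Agent.Lib.H14D

open Finset Equiv Matrix HopfSix

open Pool.Agent.H69Hopf (ev)

variable {ι : Type} [Fintype ι] [DecidableEq ι]

/-- the curvature operator of `R` is at most the square of the two-form `a ∧ b`. -/
def OpLeSq (R : Fin 6 → Fin 6 → Fin 6 → Fin 6 → ℝ) (a b : Fin 6 → ℝ) : Prop :=
  ∀ v : Matrix (Fin 6) (Fin 6) ℝ, v.transpose = -v →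
    ∑ i, ∑ j, ∑ k, ∑ l, R i j k l * v i j * v k l ≤ (∑ i, ∑ j, (a i * b j - a j * b i) * v i j) ^ 2

theorem decomp (R : Fin 6 → Fin 6 → Fin 6 → Fin 6 → ℝ) (hA : Pool.Agent.H69Hopf.IsAlgCurv R) (a b : Fin 6 → ℝ)
    (h : OpLeSq R a b) :
    ∃ w : Fin 6 × Fin 6 → M6, (∀ x i j, w x i j = - w x j i) ∧
      ∀ i j k l, R i j k l = w2 a b i j * w2 a b k l - ∑ x, w x i j * w x k l := by
  obtain ⟨w, h1, h2⟩ := psd_decomp (fun i j k l => w2 a b i j * w2 a b k l - R i j k l)
    (fun i j k l => by
      show w2 a b i j * w2 a b k l - R i j k l = -(w2 a b j i * w2 a b k l - R j i k l)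
      rw [hA.skew i j k l, w2_skew a b i j]
      ring)
    (fun i j k l => by
      show w2 a b i j * w2 a b k l - R i j k l = w2 a b k l * w2 a b i j - R k l i j
      rw [hA.pair i j k l]
      ring)
    (fun v hv => by
      have h3 := h v (by
        ext i j
        rw [Matrix.transpose_apply, Matrix.neg_apply, hv j i])
      have h4 : curvOp (fun i j k l => w2 a b i j * w2 a b k l - R i j k l) v =
          (∑ i, ∑ j, (a i * b j - a j * b i) * v i j) ^ 2 -
            ∑ i, ∑ j, ∑ k, ∑ l, R i j k l * v i j * v k l := by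
        have h5 : (∑ i, ∑ j, (a i * b j - a j * b i) * v i j) ^ 2 =
            ∑ i, ∑ j, ∑ k, ∑ l, w2 a b i j * w2 a b k l * v i j * v k l := by
          rw [sq, Finset.sum_mul]
          refine Finset.sum_congr rfl fun i _ => ?_
          rw [Finset.sum_mul]
          refine Finset.sum_congr rfl fun j _ => ?_
          rw [Finset.mul_sum]
          refine Finset.sum_congr rfl fun k _ => ?_
          rw [Finset.mul_sum]
          refine Finset.sum_congr rfl fun l _ => ?_
          unfold w2
          ring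
        rw [h5]
        unfold curvOp
        simp only [← Finset.sum_sub_distrib]
        refine Finset.sum_congr rfl fun i _ => Finset.sum_congr rfl fun j _ =>
          Finset.sum_congr rfl fun k _ => Finset.sum_congr rfl fun l _ => ?_
        ring
      rw [h4]
      linarith)
  refine ⟨w, h1, fun i j k l => ?_⟩
  have h3 := h2 i j k l
  linarith

/-- the pointwise theorem. -/
theorem tensor_nonpos (R : Fin 6 → Fin 6 → Fin 6 → Fin 6 → ℝ) (hA : Pool.Agent.H69Hopf.IsAlgCurv R)
    (hK : ∀ u v, ev R u v u v ≤ 0) (hS : ∃ a b, OpLeSq R a b) : HopfSix.gaussBonnet R ≤ 0 := by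
  obtain ⟨a, b, h⟩ := hS
  obtain ⟨w, h1, h2⟩ := decomp R hA a b h
  exact n3_main w h1 a b R h2 hK

end Pool.Agent.Lib.H14D
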