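import Pool.Agent.Lib.H14D.N3D

/-!
# Dimension six (MP_5a30bb): the strict form
-/

set_option autoImplicit false
set_option linter.unusedSectionVars false

namespace Pool.Agent.Lib.H14D

open Finset Equiv Matrix HopfSix

open Pool.Agent.H69Hopf (ev)

variable {ι : Type} [Fintype ι] [DecidableEq ι]

theorem val_self (g : M6) (hg : ∀ i j, g i j = - g j i) (u : Fin 6 → ℝ) : val g u u = 0 := by
  have h1 : val g u u = - val g u u := by
    conv_lhs => rw [val]
    rw [Finset.sum_comm]
    unfold val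
    rw [← Finset.sum_neg_distrib]
    refine Finset.sum_congr rfl fun i _ => ?_
    rw [← Finset.sum_neg_distrib]
    refine Finset.sum_congr rfl fun j _ => ?_
    rw [hg j i]
    ring
  linarith

theorem val_add_left (g : M6) (u u' v : Fin 6 → ℝ) : val g (u + u') v = val g u v + val g u' v := by
  rw [val_eq, val_eq, val_eq, add_dotProduct]

theorem val_smul_left (g : M6) (c : ℝ) (u v : Fin 6 → ℝ) : val g (c • u) v = c * val g u v := by
  rw [val_eq, val_eq, smul_dotProduct, smul_eq_mul]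

theorem val_add_right (g : M6) (u v v' : Fin 6 → ℝ) : val g u (v + v') = val g u v + val g u v' := by
  rw [val_eq, val_eq, val_eq, Matrix.mulVec_add, dotProduct_add]

theorem val_smul_right (g : M6) (c : ℝ) (u v : Fin 6 → ℝ) : val g u (c • v) = c * val g u v := by
  rw [val_eq, val_eq, Matrix.mulVec_smul, dotProduct_smul, smul_eq_mul]

/-- linearly dependent vectors. -/
theorem val_dep (g : M6) (hg : ∀ i j, g i j = - g j i) (u v : Fin 6 → ℝ) (h : val g u v ≠ 0) :
    LinearIndependent ℝ ![u, v] := by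
  rw [LinearIndependent.pair_iff]
  intro s t hst
  have h1 : s * val g u v = 0 := by
    have h2 : val g (s • u + t • v) v = 0 := by
      rw [hst, val_eq, zero_dotProduct]
    rw [val_add_left, val_smul_left, val_smul_left, val_self g hg] at h2
    linarith
  have h2 : t * val g u v = 0 := by
    have h3 : val g u (s • u + t • v) = 0 := by
      rw [hst, val_eq, Matrix.mulVec_zero, dotProduct_zero]
    rw [val_add_right, val_smul_right, val_smul_right, val_self g hg] at h3
    linarith
  exact ⟨(mul_eq_zero.1 h1).resolve_right h, (mul_eq_zero.1 h2).resolve_right h⟩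

theorem val_single (g : M6) (i j : Fin 6) : val g (Pi.single i 1) (Pi.single j 1) = g i j := by
  rw [val_eq, Matrix.mulVec_single_one, single_one_dotProduct]
  rfl

/-- the plane in the kernel of a two-form of rank two. -/
theorem kernel_plane (f g : M6) (hg : ∀ i j, g i j = - g j i) (p q r s : Fin 6) :
    val g (f p q • Pi.single r 1 + (f q r • Pi.single p 1 + (-f p r) • Pi.single q 1))
      (f p q • Pi.single s 1 + (f q s • Pi.single p 1 + (-f p s) • Pi.single q 1)) =
    f p q * (f p q * g r s + g p q * f r s - f p r * g q s - g p r * f q s + f p s * g q r +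
      g p s * f q r) - pf4 f p q r s * g p q := by
  simp only [val_add_left, val_add_right, val_smul_left, val_smul_right, val_single]
  have h1 : g p p = 0 := by linarith [hg p p]
  have h2 : g q q = 0 := by linarith [hg q q]
  rw [h1, h2, hg r p, hg r q, hg q p]
  unfold pf4
  ring

/-- two vectors with unit-like entries are independent. -/
theorem indep_of_entries (u v : Fin 6 → ℝ) (i j : Fin 6) (h1 : u i ≠ 0) (h2 : v i = 0) (h3 : u j = 0)
    (h4 : v j ≠ 0) : LinearIndependent ℝ ![u, v] := by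
  rw [LinearIndependent.pair_iff]
  intro s t hst
  have e1 := congrFun hst i
  have e2 := congrFun hst j
  simp only [Pi.add_apply, Pi.smul_apply, smul_eq_mul, Pi.zero_apply] at e1 e2
  rw [h2] at e1
  rw [h3] at e2
  constructor
  · rw [mul_zero, add_zero] at e1
    exact (mul_eq_zero.1 e1).resolve_right h1
  · rw [mul_zero, zero_add] at e2
    exact (mul_eq_zero.1 e2).resolve_right h4

/-- if all wedge products vanish, all the two-forms vanish on some plane. -/
theorem exists_plane (w : ι → M6) (hw : ∀ x i j, w x i j = - w x j i)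
    (hW : ∀ x y z, W (w x) (w y) (w z) = 0) :
    ∃ u v : Fin 6 → ℝ, LinearIndependent ℝ ![u, v] ∧ ∀ x, val (w x) u v = 0 := by
  by_contra hcon
  push Not at hcon
  have hK : ∀ f : M6, (∀ i j, f i j = - f j i) → W f f f = 0 → (∀ z, W f f (w z) = 0) →
      cr f f = 0 := by
    intro f hf h1 h2
    by_contra hne
    obtain ⟨i, j, hij⟩ : ∃ i j, cr f f i j ≠ 0 := by
      by_contra h
      push Not at h
      exact hne (by ext i j; exact h i j)
    have hii : ∀ i, cr f f i i = 0 := fun i => by linarith [cr_skew f f i i]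
    have hl : LinearIndependent ℝ ![cr f f *ᵥ Pi.single j 1, cr f f *ᵥ Pi.single i 1] := by
      rw [Matrix.mulVec_single_one, Matrix.mulVec_single_one]
      refine indep_of_entries _ _ i j hij (hii i) (hii j) ?_
      show cr f f j i ≠ 0
      rw [cr_skew f f j i]
      exact neg_ne_zero.2 hij
    obtain ⟨x, hx⟩ := hcon _ _ hl
    apply hx
    rw [val_UV f (w x) hf (hw x), h1, h2]
    ring
  have h0 : ∀ x, cr (w x) (w x) = 0 := fun x => hK _ (hw x) (hW x x x) fun z => hW x x z
  have hs : ∀ x y, cr (w x + w y) (w x + w y) = 0 := by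
    intro x y
    refine hK _ (fun i j => by rw [Matrix.add_apply, Matrix.add_apply, hw x i j, hw y i j]; ring) ?_ ?_
    · simp only [W_add1, W_add2, W_add3, hW]
      ring
    · intro z
      simp only [W_add1, W_add2, hW]
      ring
  have hpf : ∀ f : M6, (∀ i j, f i j = - f j i) → cr f f = 0 → pf4 f 0 1 2 3 = 0 := by
    intro f hf h
    rw [cr_self f hf] at h
    have h1 := congrFun (congrFun h 4) 5
    simp only [Matrix.smul_apply, smul_eq_mul, Matrix.zero_apply] at h1
    have h2 : shp f 4 5 = pf4 f 0 1 2 3 := by simp [shp]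
    rw [h2] at h1
    linarith
  by_cases h01 : ∀ x, w x 0 1 = 0
  · obtain ⟨x, hx⟩ := hcon (Pi.single 0 1) (Pi.single 1 1)
      (indep_of_entries _ _ 0 1 (by simp) (by simp) (by simp) (by simp))
    exact hx (by rw [val_single, h01])
  · push Not at h01
    obtain ⟨y, hy⟩ := h01
    obtain ⟨x, hx⟩ := hcon
      (w y 0 1 • Pi.single 2 1 + (w y 1 2 • Pi.single 0 1 + (-w y 0 2) • Pi.single 1 1))
      (w y 0 1 • Pi.single 3 1 + (w y 1 3 • Pi.single 0 1 + (-w y 0 3) • Pi.single 1 1))
      (indep_of_entries _ _ 2 3 (by simpa using hy) (by simp) (by simp) (by simpa using hy))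
    apply hx
    rw [kernel_plane (w y) (w x) (hw x)]
    have e1 := hpf _ (hw y) (h0 y)
    have e2 := hpf _ (hw x) (h0 x)
    have e3 := hpf (w y + w x) (fun i j => by
      rw [Matrix.add_apply, Matrix.add_apply, hw y i j, hw x i j]; ring) (hs y x)
    rw [e1]
    unfold pf4 at e1 e2 e3
    simp only [Matrix.add_apply] at e3
    linear_combination (w y 0 1) * (e3 - e1 - e2)

/-- THE STRICT SIGN in dimension six. -/
theorem n3_strict (w : ι → M6) (hw : ∀ x i j, w x i j = - w x j i) (a b : Fin 6 → ℝ)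
    (R : Fin 6 → Fin 6 → Fin 6 → Fin 6 → ℝ)
    (hR : ∀ i j k l, R i j k l = w2 a b i j * w2 a b k l - ∑ x, w x i j * w x k l)
    (hK : ∀ u v, LinearIndependent ℝ ![u, v] → ev R u v u v < 0) : HopfSix.gaussBonnet R < 0 := by
  obtain ⟨w', h1, h2, h3⟩ := rot w hw (w2 a b)
  have hR' : ∀ i j k l, R i j k l = w2 a b i j * w2 a b k l - ∑ x, w' x i j * w' x k l := by
    intro i j k l
    rw [h2, hR]
  have hKs : ∀ u v, LinearIndependent ℝ ![u, v] →
      val (w2 a b) u v ^ 2 < ∑ x, val (w' x) u v ^ 2 := by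
    intro u v huv
    have h4 := hK u v huv
    rw [ev_sq w' (w2 a b) R hR' u v] at h4
    linarith
  have hK' : ∀ u v, val (w2 a b) u v ^ 2 ≤ ∑ x, val (w' x) u v ^ 2 := by
    intro u v
    by_cases h : val (w2 a b) u v = 0
    · rw [h]
      have : 0 ≤ ∑ x, val (w' x) u v ^ 2 := Finset.sum_nonneg fun _ _ => sq_nonneg _
      simpa using this
    · exact (hKs u v (val_dep _ (w2_skew a b) u v h)).le
  rw [gb_eq6 w' a b R hR']
  by_contra hcon
  push Not at hcon
  set l : ι → ℝ := fun y => W (w' y) (w' y) (w2 a b) with hl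
  set S2 : ℝ := ∑ y, ∑ x, W (w' y) (w' y) (w' x) ^ 2 with hS2
  set S3 : ℝ := ∑ y, W (w' y) (w' y) (w' y) ^ 2 with hS3
  set T3 : ℝ := ∑ x, ∑ y, ∑ z, W (w' x) (w' y) (w' z) ^ 2 with hT3
  have e1 : ∑ x, ∑ y, W (w' x) (w' y) (w2 a b) ^ 2 = ∑ y, l y ^ 2 := by
    refine Finset.sum_congr rfl fun x _ => ?_
    rw [Finset.sum_eq_single x]
    · intro y _ hy
      rw [h3 x y (Ne.symm hy)]
      ring
    · intro h
      exact absurd (mem_univ x) h
  rw [e1] at hcon
  have e2 : 3 * S2 - 2 * S3 ≤ T3 := triple_ineq w'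
  have e3 : 0 ≤ S3 := Finset.sum_nonneg fun _ _ => sq_nonneg _
  have e4 : ∀ y, l y ^ 2 ≤ ∑ x, W (w' y) (w' y) (w' x) ^ 2 -
      (8 / 9) * W (w' y) (w' y) (w' y) ^ 2 := by
    intro y
    have h4 := plane_ineq w' h1 a b hK' h3 y
    rw [← Finset.add_sum_erase univ (fun x => W (w' y) (w' y) (w' x) ^ 2) (mem_univ y)]
    simp only [hl]
    linarith
  have e5 : ∑ y, (∑ x, W (w' y) (w' y) (w' x) ^ 2 - (8 / 9) * W (w' y) (w' y) (w' y) ^ 2) =
      S2 - (8 / 9) * S3 := by
    rw [Finset.sum_sub_distrib, ← Finset.mul_sum]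
  have e6 : ∑ y, l y ^ 2 ≤ S2 - (8 / 9) * S3 := by
    rw [← e5]
    exact Finset.sum_le_sum fun y _ => e4 y
  have e7 : ∀ y, l y = 0 := by
    by_contra h
    push Not at h
    obtain ⟨y, hy⟩ := h
    have h4 := plane_strict w' h1 a b (fun u v huv => hKs u v (val_dep _ (w2_skew a b) u v huv)) h3 y hy
    have h5 : l y ^ 2 < ∑ x, W (w' y) (w' y) (w' x) ^ 2 - (8 / 9) * W (w' y) (w' y) (w' y) ^ 2 := by
      rw [← Finset.add_sum_erase univ (fun x => W (w' y) (w' y) (w' x) ^ 2) (mem_univ y)]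
      simp only [hl]
      linarith
    have h6 : ∑ y, l y ^ 2 < S2 - (8 / 9) * S3 := by
      rw [← e5]
      exact Finset.sum_lt_sum (fun y _ => e4 y) ⟨y, mem_univ y, h5⟩
    linarith
  have e8 : ∑ y, l y ^ 2 = 0 := Finset.sum_eq_zero fun y _ => by rw [e7 y]; ring
  have e9 : T3 ≤ 0 := by linarith
  have e10 : ∀ x y z, W (w' x) (w' y) (w' z) = 0 := by
    have f1 : T3 = 0 := le_antisymm e9
      (Finset.sum_nonneg fun _ _ => Finset.sum_nonneg fun _ _ => Finset.sum_nonneg fun _ _ => sq_nonneg _)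
    rw [hT3] at f1
    intro x y z
    have f2 := (Finset.sum_eq_zero_iff_of_nonneg (fun x _ => Finset.sum_nonneg fun _ _ =>
      Finset.sum_nonneg fun _ _ => sq_nonneg _)).1 f1 x (mem_univ x)
    have f3 := (Finset.sum_eq_zero_iff_of_nonneg (fun y _ => Finset.sum_nonneg fun _ _ =>
      sq_nonneg _)).1 f2 y (mem_univ y)
    have f4 := (Finset.sum_eq_zero_iff_of_nonneg (fun z _ => sq_nonneg _)).1 f3 z (mem_univ z)
    exact pow_eq_zero_iff (two_ne_zero) |>.1 f4
  obtain ⟨u, v, huv, hz⟩ := exists_plane w' h1 e10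
  have h4 := hKs u v huv
  have h5 : ∑ x, val (w' x) u v ^ 2 = 0 := Finset.sum_eq_zero fun x _ => by rw [hz x]; ring
  rw [h5] at h4
  nlinarith [sq_nonneg (val (w2 a b) u v)]

theorem tensor_neg (R : Fin 6 → Fin 6 → Fin 6 → Fin 6 → ℝ) (hA : Pool.Agent.H69Hopf.IsAlgCurv R)
    (hK : ∀ u v, LinearIndependent ℝ ![u, v] → ev R u v u v < 0) (hS : ∃ a b, OpLeSq R a b) :
    HopfSix.gaussBonnet R < 0 := by
  obtain ⟨a, b, h⟩ := hS
  obtain ⟨w, h1, h2⟩ := decomp R hA a b h
  exact n3_strict w h1 a b R h2 hK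

end Pool.Agent.Lib.H14D
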