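import Pool.Agent.Lib.H14D.N3E
import Pool.Agent.Lib.H46X.B3
import Pool.Agent.Lib.H79G.F1

/-!
# Dimension six (MP_5a30bb): closed manifolds
-/

set_option autoImplicit false

open scoped Manifold ContDiff

namespace Pool.Agent.Lib.H14D

open Pool.Agent.H69Hopf Pool.Agent.H46X H31R H79G

theorem gb3 (R : Arr (2 * 3)) : Pool.Agent.H69Hopf.gaussBonnet 3 R = HopfSix.gaussBonnet R := by
  unfold Pool.Agent.H69Hopf.gaussBonnet HopfSix.gaussBonnet
  refine Finset.sum_congr rfl fun σ _ => Finset.sum_congr rfl fun τ _ => ?_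
  rw [Fin.prod_univ_three]
  rfl

/-- Closed manifolds. -/
theorem closed6 (M : Closed (2 * 3)) (g : Ch.Metric (2 * 3) M.carrier)
    (hR : ∀ p : M.carrier, ∀ y ∈ (chartAt (EE (2 * 3)) p).target,
      (∀ u v, ev (riem (g.mat p) y) u v u v ≤ 0) ∧ ∃ a b, OpLeSq (riem (g.mat p) y) a b) :
    ∃ χ : ℤ, IsEulerCharacteristic (2 * 3) M.carrier χ ∧ χ ≤ 0 ∧
      ((∃ m : M.carrier, ∀ u v, LinearIndependent ℝ ![u, v] →
        ev (riem (g.mat m) (chartAt (EE (2 * 3)) m m)) u v u v < 0) → χ < 0) := by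
  have hdet : ∀ {G E : Mt (2 * 3)}, E.transpose * G * E = 1 → 0 < E.det ^ 2 := by
    intro G E hE
    have h1 : E.det ≠ 0 := by
      intro h
      have h2 := congrArg Matrix.det hE
      rw [Matrix.det_mul, Matrix.det_mul, h, mul_zero, Matrix.det_one] at h2
      exact zero_ne_one h2
    positivity
  obtain ⟨χ, h1, h2, h3⟩ := sign_principle 3 M g (-1) fun p y hy E hE => by
    rw [gb_frameR, gb3]
    have h4 := tensor_nonpos (riem (g.mat p) y) (riem_algCurv (metOn g p) hy) (hR p y hy).1 (hR p y hy).2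
    have h5 := mul_nonneg (sq_nonneg E.det) (neg_nonneg.2 h4)
    linarith
  refine ⟨χ, h1, ?_, fun ⟨m, hm⟩ => ?_⟩
  · have h4 : (0 : ℝ) ≤ -1 * χ := h2
    have h5 : (χ : ℝ) ≤ 0 := by linarith
    exact_mod_cast h5
  · have h4 : (0 : ℝ) < -1 * χ := h3 ⟨m, fun E hE => by
      rw [gb_frameR, gb3]
      have h5 := tensor_neg (riem (g.mat m) (chartAt (EE (2 * 3)) m m))
        (riem_algCurv (metOn g m) (mem_chart_target _ m)) hm (hR m _ (mem_chart_target _ m)).2
      have h6 := mul_pos (hdet hE) (neg_pos.2 h5)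
      linarith⟩
    have h5 : (χ : ℝ) < 0 := by linarith
    exact_mod_cast h5

end Pool.Agent.Lib.H14D
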