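import Pool.Agent.Lib.H14D.N3F

/-!
# Dimension six (MP_5a30bb): the class for all `n`, interface for the hand-in

`SixClass n R`: `n = 3`, nonpositive sectional curvature, and the curvature operator of `R` is at most the square of
a simple two-form `a ∧ b`.
-/

set_option autoImplicit false

namespace Pool.Agent.Lib.H14D

open Pool.Agent.H69Hopf Pool.Agent.H46X H31R H79G

/-- The curvature operator of `R` is at most the square of the simple two-form `a ∧ b`. -/
def LeSimpleSq {N : ℕ} (R : Arr N) : Prop :=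
  ∃ a b : Fin N → ℝ, ∀ v : Matrix (Fin N) (Fin N) ℝ, v.transpose = -v →
    ∑ i, ∑ j, ∑ k, ∑ l, R i j k l * v i j * v k l ≤ (∑ i, ∑ j, (a i * b j - a j * b i) * v i j) ^ 2

theorem six_nonneg {n : ℕ} (hn : n = 3) {R : Arr (2 * n)} (hA : IsAlgCurv R)
    (hK : ∀ u v, ev R u v u v ≤ 0) (hS : LeSimpleSq R) :
    0 ≤ (-1) ^ n * Pool.Agent.H69Hopf.gaussBonnet n R := by
  subst hn
  rw [gb3]
  have h := tensor_nonpos R hA hK hS
  have h2 : ((-1 : ℝ)) ^ 3 = -1 := by norm_num
  rw [h2]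
  linarith

theorem six_pos {n : ℕ} (hn : n = 3) {R : Arr (2 * n)} (hA : IsAlgCurv R)
    (hK : ∀ u v, LinearIndependent ℝ ![u, v] → ev R u v u v < 0) (hS : LeSimpleSq R) :
    0 < (-1) ^ n * Pool.Agent.H69Hopf.gaussBonnet n R := by
  subst hn
  rw [gb3]
  have h := tensor_neg R hA hK hS
  have h2 : ((-1 : ℝ)) ^ 3 = -1 := by norm_num
  rw [h2]
  linarith

/-- in a frame. -/
theorem six_nonneg_frame {n : ℕ} (hn : n = 3) {R : Arr (2 * n)} (hA : IsAlgCurv R)
    (hK : ∀ u v, ev R u v u v ≤ 0) (hS : LeSimpleSq R) (E : Mt (2 * n)) :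
    0 ≤ (-1) ^ n * Pool.Agent.H69Hopf.gaussBonnet n (frameR R E) := by
  rw [gb_frameR, mul_left_comm]
  exact mul_nonneg (sq_nonneg _) (six_nonneg hn hA hK hS)

theorem six_pos_frame {n : ℕ} (hn : n = 3) {R : Arr (2 * n)} (hA : IsAlgCurv R)
    (hK : ∀ u v, LinearIndependent ℝ ![u, v] → ev R u v u v < 0) (hS : LeSimpleSq R)
    {G E : Mt (2 * n)} (hE : E.transpose * G * E = 1) :
    0 < (-1) ^ n * Pool.Agent.H69Hopf.gaussBonnet n (frameR R E) := by
  rw [gb_frameR, mul_left_comm]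
  have h1 : E.det ≠ 0 := by
    intro h
    have h2 := congrArg Matrix.det hE
    rw [Matrix.det_mul, Matrix.det_mul, h, mul_zero, Matrix.det_one] at h2
    exact zero_ne_one h2
  have h2 : 0 < E.det ^ 2 := by positivity
  exact mul_pos h2 (six_pos hn hA hK hS)

end Pool.Agent.Lib.H14D
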