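import Mathlib

/-!
# Simultaneous orthogonal diagonalization of commuting symmetric matrices
-/

set_option autoImplicit false

namespace Pool.Agent.Lib.H14D.SD

open Matrix Module

theorem exists_basis {κ β : Type} [Fintype κ] [DecidableEq κ]
    (Q : β → Matrix κ κ ℝ) (hs : ∀ B, (Q B).transpose = Q B)
    (hc : ∀ B B', Q B * Q B' = Q B' * Q B) :
    ∃ b : OrthonormalBasis κ ℝ (EuclideanSpace ℝ κ), ∀ B y, ∃ μ : ℝ,
      Matrix.toEuclideanLin (Q B) (b y) = μ • b y := by
  classical
  let T : β → End ℝ (EuclideanSpace ℝ κ) := fun B => Matrix.toEuclideanLin (Q B)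
  have hT : ∀ B, (T B).IsSymmetric := by
    intro B
    rw [Matrix.isSymmetric_toEuclideanLin_iff, Matrix.IsHermitian,
      Matrix.conjTranspose_eq_transpose_of_trivial]
    exact hs B
  have hC : Pairwise (Function.onFun Commute T) := by
    intro B B' _
    show T B * T B' = T B' * T B
    have h1 : ∀ M N : Matrix κ κ ℝ, (Matrix.toEuclideanLin M : End ℝ (EuclideanSpace ℝ κ)) *
        Matrix.toEuclideanLin N = Matrix.toEuclideanLin (M * N) := by
      intro M N
      apply LinearMap.ext
      intro v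
      rw [Module.End.mul_apply]
      ext i
      simp [Matrix.toEuclideanLin, Matrix.mulVec_mulVec]
    show (Matrix.toEuclideanLin (Q B) : End ℝ (EuclideanSpace ℝ κ)) * Matrix.toEuclideanLin (Q B') =
      (Matrix.toEuclideanLin (Q B') : End ℝ (EuclideanSpace ℝ κ)) * Matrix.toEuclideanLin (Q B)
    rw [h1, h1, hc]
  have hV := LinearMap.IsSymmetric.directSum_isInternal_of_pairwise_commute hT hC
  have hO := LinearMap.IsSymmetric.orthogonalFamily_iInf_eigenspaces hT
  let V : (β → ℝ) → Submodule ℝ (EuclideanSpace ℝ κ) := fun α => ⨅ j, (T j).eigenspace (α j)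
  have hV' : DirectSum.IsInternal (fun i : {i // V i ≠ ⊥} => V i) :=
    (DirectSum.isInternal_ne_bot_iff (A := V)).2 hV
  have : Fintype {i // V i ≠ ⊥} := hV.submodule_iSupIndep.fintypeNeBotOfFiniteDimensional
  have hO' : OrthogonalFamily ℝ (fun i : {i // V i ≠ ⊥} => ↥(V i)) fun i => (V i).subtypeₗᵢ :=
    hO.comp Subtype.val_injective
  have hn : finrank ℝ (EuclideanSpace ℝ κ) = Fintype.card κ := by simp
  let b0 := hV'.subordinateOrthonormalBasis hn hO'
  let e : Fin (Fintype.card κ) ≃ κ := (Fintype.equivFin κ).symm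
  refine ⟨b0.reindex e, fun B y => ?_⟩
  have h1 := hV'.subordinateOrthonormalBasis_subordinate hn (e.symm y) hO'
  refine ⟨(hV'.subordinateOrthonormalBasisIndex hn (e.symm y) hO').1 B, ?_⟩
  rw [OrthonormalBasis.reindex_apply]
  have h2 : b0 (e.symm y) ∈ (T B).eigenspace
      ((hV'.subordinateOrthonormalBasisIndex hn (e.symm y) hO').1 B) :=
    (Submodule.mem_iInf _).1 h1 B
  exact Module.End.mem_eigenspace_iff.1 h2

/-- commuting symmetric matrices are diagonal in a common orthonormal basis. -/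
theorem sim_diag {κ β : Type} [Fintype κ] [DecidableEq κ]
    (Q : β → Matrix κ κ ℝ) (hs : ∀ B, (Q B).transpose = Q B)
    (hc : ∀ B B', Q B * Q B' = Q B' * Q B) :
    ∃ U : Matrix κ κ ℝ, U.transpose * U = 1 ∧ U * U.transpose = 1 ∧
      ∀ B, ∃ d : κ → ℝ, U.transpose * Q B * U = Matrix.diagonal d := by
  obtain ⟨b, hb⟩ := exists_basis Q hs hc
  let U : Matrix κ κ ℝ := Matrix.of fun x y => b y x
  have h1 : U.transpose * U = 1 := by
    ext y z
    rw [Matrix.mul_apply, Matrix.one_apply]
    have h := b.inner_eq_ite y z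
    rw [← h]
    simp only [PiLp.inner_apply, RCLike.inner_apply, conj_trivial, U, Matrix.transpose_apply,
      Matrix.of_apply]
    refine Finset.sum_congr rfl fun x _ => ?_
    ring
  refine ⟨U, h1, mul_eq_one_comm.1 h1, fun B => ?_⟩
  choose μ hμ using hb B
  refine ⟨μ, ?_⟩
  have h2 : Q B * U = U * Matrix.diagonal μ := by
    ext x y
    rw [Matrix.mul_diagonal]
    have h3 := congrArg (fun v : EuclideanSpace ℝ κ => v x) (hμ y)
    simp only [PiLp.smul_apply, smul_eq_mul] at h3
    have h4 : (Matrix.toEuclideanLin (Q B) (b y)) x = (Q B * U) x y := by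
      simp [Matrix.toEuclideanLin, Matrix.mul_apply, Matrix.mulVec, dotProduct, U]
    rw [← h4, h3]
    simp only [U, Matrix.of_apply]
    ring
  rw [Matrix.mul_assoc, h2, ← Matrix.mul_assoc, h1, Matrix.one_mul]

end Pool.Agent.Lib.H14D.SD
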