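import Pool.Agent.Lib.H14D.FE

/-!
# The Fischer expansion under a linear change of the basis (MP_5a30bb)
-/

set_option autoImplicit false
set_option linter.unusedSectionVars false

namespace Pool.Agent.Lib.H14D.SH

open Finset Equiv Pool.Agent.H69Hopf Pool.Agent.Lib.H14D.FE

theorem prod_pos {n : ℕ} (F : Fin (2 * n) → ℝ) : ∏ v, F v = ∏ i, (F (fst i) * F (snd i)) := by
  rw [← (pos' n).prod_comp F, Fintype.prod_prod_type]
  refine Finset.prod_congr rfl fun i _ => ?_
  rw [Fintype.prod_bool, pos_true', pos_false', mul_comm]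

/-- maps of the positions as pairs. -/
noncomputable def eqv (n : ℕ) : (Fin (2 * n) → Fin (2 * n)) ≃ (Fin n → Fin (2 * n) × Fin (2 * n)) where
  toFun g i := (g (fst i), g (snd i))
  invFun h v := if ((pos' n).symm v).2 then (h ((pos' n).symm v).1).2 else (h ((pos' n).symm v).1).1
  left_inv g := by
    funext v
    obtain ⟨⟨i, b⟩, rfl⟩ := (pos' n).surjective v
    simp only [Equiv.symm_apply_apply]
    cases b
    · rfl
    · rfl
  right_inv h := by
    funext i
    have h1 : (pos' n).symm (fst i) = (i, false) := by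
      rw [← pos_false' i, Equiv.symm_apply_apply]
    have h2 : (pos' n).symm (snd i) = (i, true) := by
      rw [← pos_true' i, Equiv.symm_apply_apply]
    simp [h1, h2]

/-- (M1) the product of two-forms under a linear change. -/
theorem mp_lin {n : ℕ} (f : Fin n → Fin (2 * n) → Fin (2 * n) → ℝ)
    (E : Matrix (Fin (2 * n)) (Fin (2 * n)) ℝ) :
    mp (fun i s t => ∑ p, ∑ q, f i p q * E p s * E q t) = E.det * mp f := by
  classical
  have h1 : ∀ σ : Perm (Fin (2 * n)),
      ∏ i, (∑ p, ∑ q, f i p q * E p (σ (fst i)) * E q (σ (snd i))) =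
        ∑ g : Fin (2 * n) → Fin (2 * n), (∏ i, f i (g (fst i)) (g (snd i))) * ∏ v, E (g v) (σ v) := by
    intro σ
    have h2 : ∀ i, (∑ p, ∑ q, f i p q * E p (σ (fst i)) * E q (σ (snd i))) =
        ∑ x : Fin (2 * n) × Fin (2 * n), f i x.1 x.2 * E x.1 (σ (fst i)) * E x.2 (σ (snd i)) := by
      intro i
      rw [Fintype.sum_prod_type]
    simp only [h2]
    rw [Finset.prod_univ_sum, Fintype.piFinset_univ, ← (eqv n).sum_comp]
    refine Finset.sum_congr rfl fun g _ => ?_
    rw [prod_pos, ← Finset.prod_mul_distrib]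
    refine Finset.prod_congr rfl fun i _ => ?_
    show f i (g (fst i)) (g (snd i)) * E (g (fst i)) (σ (fst i)) * E (g (snd i)) (σ (snd i)) = _
    ring
  have h3 : ∀ g : Fin (2 * n) → Fin (2 * n),
      ∑ σ : Perm (Fin (2 * n)), ((Perm.sign σ : ℤ) : ℝ) * ∏ v, E (g v) (σ v) =
        (E.submatrix g id).det := by
    intro g
    rw [← Matrix.det_transpose, Matrix.det_apply']
    rfl
  unfold mp
  simp only [h1]
  have h4 : ∑ σ : Perm (Fin (2 * n)), ((Perm.sign σ : ℤ) : ℝ) *
      ∑ g : Fin (2 * n) → Fin (2 * n), (∏ i, f i (g (fst i)) (g (snd i))) * ∏ v, E (g v) (σ v) =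
      ∑ g : Fin (2 * n) → Fin (2 * n), (∏ i, f i (g (fst i)) (g (snd i))) *
        (E.submatrix g id).det := by
    simp only [← h3, Finset.mul_sum]
    rw [Finset.sum_comm]
    refine Finset.sum_congr rfl fun g _ => Finset.sum_congr rfl fun σ _ => ?_
    ring
  rw [h4, Finset.mul_sum]
  symm
  refine Fintype.sum_of_injective (fun σ : Perm (Fin (2 * n)) => (σ : Fin (2 * n) → Fin (2 * n)))
    DFunLike.coe_injective _ _ (fun g hg => ?_) (fun σ => ?_)
  · have h5 : ¬ Function.Injective g := by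
      intro h5
      exact hg ⟨Equiv.ofBijective g (Finite.injective_iff_bijective.1 h5), rfl⟩
    rw [Function.Injective] at h5
    push Not at h5
    obtain ⟨p, q, hpq, hne⟩ := h5
    have h6 : (E.submatrix g id).det = 0 := by
      refine Matrix.det_zero_of_row_eq hne ?_
      funext x
      simp [hpq]
    rw [h6, mul_zero]
  · rw [Matrix.det_permute]
    ring

/-- (M2) a common null vector. -/
theorem mp_null {n : ℕ} (f : Fin n → Fin (2 * n) → Fin (2 * n) → ℝ) (z : Fin (2 * n) → ℝ)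
    (hz : z ≠ 0) (h1 : ∀ i t, ∑ s, z s * f i s t = 0) (h2 : ∀ i s, ∑ t, z t * f i s t = 0) :
    mp f = 0 := by
  classical
  obtain ⟨p, hp⟩ := Function.ne_iff.1 hz
  have hp' : z p ≠ 0 := hp
  let E : Matrix (Fin (2 * n)) (Fin (2 * n)) ℝ := Matrix.updateCol 1 p z
  have hE : E.det = z p := by
    show (Matrix.updateCol 1 p z).det = z p
    rw [← Matrix.cramer_apply]
    simp
  have hEp : ∀ q, E q p = z q := fun q => by simp [E]
  have h3 := mp_lin f E
  have h4 : mp (fun i s t => ∑ p, ∑ q, f i p q * E p s * E q t) = 0 := by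
    unfold mp
    refine Finset.sum_eq_zero fun σ _ => ?_
    obtain ⟨v, hv⟩ := σ.surjective p
    obtain ⟨⟨i, b⟩, rfl⟩ := (pos' n).surjective v
    have h5 : ∑ p, ∑ q, f i p q * E p (σ (fst i)) * E q (σ (snd i)) = 0 := by
      cases b
      · rw [pos_false'] at hv
        rw [hv, Finset.sum_comm]
        refine Finset.sum_eq_zero fun q _ => ?_
        have h6 := h1 i q
        rw [← Finset.sum_mul] 
        have h7 : ∑ x, f i x q * E x p = 0 := by
          rw [← h6]
          refine Finset.sum_congr rfl fun s _ => ?_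
          rw [hEp]
          ring
        rw [h7, zero_mul]
      · rw [pos_true'] at hv
        rw [hv]
        refine Finset.sum_eq_zero fun q _ => ?_
        have h6 := h2 i q
        have h7 : ∑ x, f i q x * E q (σ (fst i)) * E x p = E q (σ (fst i)) * ∑ t, z t * f i q t := by
          rw [Finset.mul_sum]
          refine Finset.sum_congr rfl fun s _ => ?_
          rw [hEp]
          ring
        rw [h7, h6, mul_zero]
    rw [Finset.prod_eq_zero (mem_univ i) h5, mul_zero]
  rw [h4, hE] at h3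
  exact (mul_eq_zero.1 h3.symm).resolve_left hp'

/-- (M3) two slots whose wedge product vanishes. -/
theorem mp_wedge {n : ℕ} (f : Fin n → Fin (2 * n) → Fin (2 * n) → ℝ) (i j : Fin n) (hij : i ≠ j)
    (hsi : ∀ u v, f i u v = - f i v u) (hsj : ∀ u v, f j u v = - f j v u)
    (hP : ∀ p q r t, f i p q * f j r t - f i p r * f j q t + f i p t * f j q r +
      f i q r * f j p t - f i q t * f j p r + f i r t * f j p q = 0) : mp f = 0 := by
  -- the three-cycle `snd i -> fst j -> snd j -> snd i`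
  let c : Perm (Fin (2 * n)) := swap (snd i) (fst j) * swap (fst j) (snd j)
  have hne1 : (snd i : Fin (2 * n)) ≠ fst j := (ne_fst_snd j i).symm
  have hne2 : (fst j : Fin (2 * n)) ≠ snd j := ne_fst_snd j j
  have hne3 : (snd i : Fin (2 * n)) ≠ snd j := fun h => hij (snd_inj h)
  have hne4 : (fst i : Fin (2 * n)) ≠ snd i := ne_fst_snd i i
  have hne5 : (fst i : Fin (2 * n)) ≠ fst j := fun h => hij (fst_inj h)
  have hne6 : (fst i : Fin (2 * n)) ≠ snd j := ne_fst_snd i j
  have c1 : c (fst i) = fst i := by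
    show swap (snd i) (fst j) (swap (fst j) (snd j) (fst i)) = fst i
    rw [swap_apply_of_ne_of_ne hne5 hne6, swap_apply_of_ne_of_ne hne4 hne5]
  have c2 : c (snd i) = fst j := by
    show swap (snd i) (fst j) (swap (fst j) (snd j) (snd i)) = fst j
    rw [swap_apply_of_ne_of_ne hne1 hne3, swap_apply_left]
  have c3 : c (fst j) = snd j := by
    show swap (snd i) (fst j) (swap (fst j) (snd j) (fst j)) = snd j
    rw [swap_apply_left, swap_apply_of_ne_of_ne hne3.symm hne2.symm]
  have c4 : c (snd j) = snd i := by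
    show swap (snd i) (fst j) (swap (fst j) (snd j) (snd j)) = snd i
    rw [swap_apply_right, swap_apply_right]
  have c5 : ∀ k, k ≠ i → k ≠ j → c (fst k) = fst k := by
    intro k hki hkj
    show swap (snd i) (fst j) (swap (fst j) (snd j) (fst k)) = fst k
    rw [swap_apply_of_ne_of_ne (fun h => hkj (fst_inj h)) (ne_fst_snd k j),
      swap_apply_of_ne_of_ne (ne_fst_snd k i) (fun h => hkj (fst_inj h))]
  have c6 : ∀ k, k ≠ i → k ≠ j → c (snd k) = snd k := by
    intro k hki hkj
    show swap (snd i) (fst j) (swap (fst j) (snd j) (snd k)) = snd k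
    rw [swap_apply_of_ne_of_ne (ne_fst_snd j k).symm (fun h => hkj (snd_inj h)),
      swap_apply_of_ne_of_ne (fun h => hki (snd_inj h)) (ne_fst_snd j k).symm]
  have cs : Perm.sign c = 1 := by
    show Perm.sign (swap (snd i) (fst j) * swap (fst j) (snd j)) = 1
    rw [Perm.sign_mul, Perm.sign_swap hne1, Perm.sign_swap hne2]
    rfl
  have hmul : ∀ (σ : Perm (Fin (2 * n))) x, (σ * c) x = σ (c x) := fun _ _ => rfl
  clear_value c
  let G : Perm (Fin (2 * n)) → ℝ := fun σ => ∏ k ∈ (univ.erase i).erase j, f k (σ (fst k)) (σ (snd k))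
  let F : Perm (Fin (2 * n)) → ℝ := fun σ => ((Perm.sign σ : ℤ) : ℝ) *
      (f i (σ (fst i)) (σ (snd i)) * (f j (σ (fst j)) (σ (snd j)) * G σ))
  let F' : Perm (Fin (2 * n)) → ℝ := fun σ => ((Perm.sign σ : ℤ) : ℝ) *
      (f j (σ (fst i)) (σ (snd i)) * (f i (σ (fst j)) (σ (snd j)) * G σ))
  have hF : mp f = ∑ σ, F σ := by
    unfold mp
    refine Finset.sum_congr rfl fun σ _ => ?_
    rw [← Finset.mul_prod_erase _ _ (mem_univ i),
      ← Finset.mul_prod_erase (univ.erase i) _ (Finset.mem_erase.2 ⟨hij.symm, mem_univ j⟩)]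
  have hF' : mp f = ∑ σ, F' σ := by
    rw [← mp_perm f (swap i j)]
    unfold mp
    refine Finset.sum_congr rfl fun σ _ => ?_
    rw [← Finset.mul_prod_erase _ _ (mem_univ i),
      ← Finset.mul_prod_erase (univ.erase i) _ (Finset.mem_erase.2 ⟨hij.symm, mem_univ j⟩)]
    simp only [swap_apply_left, swap_apply_right]
    have h : ∏ x ∈ (univ.erase i).erase j, f (swap i j x) (σ (fst x)) (σ (snd x)) = G σ := by
      refine Finset.prod_congr rfl fun k hk => ?_
      have hkj := Finset.ne_of_mem_erase hk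
      have hki := Finset.ne_of_mem_erase (Finset.mem_of_mem_erase hk)
      rw [swap_apply_of_ne_of_ne hki hkj]
    rw [h]
  have hG : ∀ σ, G (σ * c) = G σ := by
    intro σ
    refine Finset.prod_congr rfl fun k hk => ?_
    have hkj := Finset.ne_of_mem_erase hk
    have hki := Finset.ne_of_mem_erase (Finset.mem_of_mem_erase hk)
    rw [hmul, hmul, c5 k hki hkj, c6 k hki hkj]
  have hs : ∀ σ, Perm.sign (σ * c) = Perm.sign σ := by
    intro σ
    rw [Perm.sign_mul, cs, mul_one]
  have e1 : ∀ H : Perm (Fin (2 * n)) → ℝ, ∑ σ, H (σ * c) = ∑ σ, H σ := fun H =>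
    Fintype.sum_equiv (Equiv.mulRight c) _ _ fun σ => rfl
  have e2 : ∀ H : Perm (Fin (2 * n)) → ℝ, ∑ σ, H (σ * c * c) = ∑ σ, H σ := fun H => by
    rw [← e1 H]
    exact Fintype.sum_equiv (Equiv.mulRight c) _ _ fun σ => rfl
  have e3 : ∀ σ, (F σ + F (σ * c) + F (σ * c * c)) + (F' σ + F' (σ * c) + F' (σ * c * c)) = 0 := by
    intro σ
    simp only [F, F', hs, hG]
    simp only [hmul, c1, c2, c3, c4]
    have h1 := hP (σ (fst i)) (σ (snd i)) (σ (fst j)) (σ (snd j))
    have h2 := hsj (σ (snd j)) (σ (snd i))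
    have h3 := hsi (σ (snd j)) (σ (snd i))
    linear_combination (((Perm.sign σ : ℤ) : ℝ) * G σ) * h1 +
      (((Perm.sign σ : ℤ) : ℝ) * G σ * f i (σ (fst i)) (σ (fst j))) * h2 +
      (((Perm.sign σ : ℤ) : ℝ) * G σ * f j (σ (fst i)) (σ (fst j))) * h3
  have e4 := Finset.sum_eq_zero fun σ (_ : σ ∈ (univ : Finset (Perm (Fin (2 * n))))) => e3 σ
  simp only [Finset.sum_add_distrib, e1, e2] at e4
  rw [← hF, ← hF'] at e4
  linarith

theorem sf_ne {M : ℕ} {e0 e1 p q : Fin M}
    (h : sf (Pi.single e0 1) (Pi.single e1 1) p q ≠ 0) : (p = e0 ∧ q = e1) ∨ (q = e0 ∧ p = e1) := by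
  by_contra hc
  apply h
  unfold sf
  simp only [Pi.single_apply]
  push Not at hc
  by_cases h1 : p = e0
  · have h2 := hc.1 h1
    rw [if_neg h2]
    by_cases h3 : q = e0
    · rw [if_neg (hc.2 h3)]
      ring
    · rw [if_neg h3]
      ring
  · rw [if_neg h1]
    by_cases h3 : q = e0
    · rw [if_neg (hc.2 h3)]
      ring
    · rw [if_neg h3]
      ring

/-- the legs in the directions `e0`, `e1` do not matter. -/
theorem mp_restrict {N : ℕ} {e0 e1 : Fin (2 * (N + 1))}
    (g g' : Fin N → Fin (2 * (N + 1)) → Fin (2 * (N + 1)) → ℝ)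
    (h : ∀ i s t, s ≠ e0 → s ≠ e1 → t ≠ e0 → t ≠ e1 → g i s t = g' i s t) :
    mp (n := N + 1) (Fin.cons (α := fun _ => Fin (2 * (N + 1)) → Fin (2 * (N + 1)) → ℝ)
        (sf (Pi.single e0 1) (Pi.single e1 1)) g) =
      mp (n := N + 1) (Fin.cons (α := fun _ => Fin (2 * (N + 1)) → Fin (2 * (N + 1)) → ℝ)
        (sf (Pi.single e0 1) (Pi.single e1 1)) g') := by
  unfold mp
  refine Finset.sum_congr rfl fun σ _ => ?_
  rw [Fin.prod_univ_succ, Fin.prod_univ_succ, Fin.cons_zero, Fin.cons_zero]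
  by_cases h0 : sf (Pi.single e0 1) (Pi.single e1 1) (σ (fst (0 : Fin (N + 1))))
      (σ (snd (0 : Fin (N + 1)))) = 0
  · rw [h0, zero_mul, zero_mul]
  · have hn : ∀ v, v ≠ fst (0 : Fin (N + 1)) → v ≠ snd (0 : Fin (N + 1)) → σ v ≠ e0 ∧ σ v ≠ e1 := by
      intro v h1 h2
      rcases sf_ne h0 with ⟨h3, h4⟩ | ⟨h3, h4⟩
      · exact ⟨fun h5 => h1 (σ.injective (h5.trans h3.symm)),
          fun h5 => h2 (σ.injective (h5.trans h4.symm))⟩
      · exact ⟨fun h5 => h2 (σ.injective (h5.trans h3.symm)),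
          fun h5 => h1 (σ.injective (h5.trans h4.symm))⟩
    have h6 : ∀ i : Fin N, g i (σ (fst i.succ)) (σ (snd i.succ)) =
        g' i (σ (fst i.succ)) (σ (snd i.succ)) := by
      intro i
      have h1 := hn (fst i.succ) (fun h => Fin.succ_ne_zero i (fst_inj h)) (ne_fst_snd _ _)
      have h2 := hn (snd i.succ) (ne_fst_snd _ _).symm (fun h => Fin.succ_ne_zero i (snd_inj h))
      exact h i _ _ h1.1 h1.2 h2.1 h2.2
    simp only [Fin.cons_succ, h6]

end Pool.Agent.Lib.H14D.SH
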